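import Pool.Agent.Run7.h931.RL.NtB
import Pool.Agent.Run7.h931.RS.Mom

/-!
# Random shifts in residue classes, part 3: the second moment of one coordinate
-/

set_option autoImplicit false

namespace Pool.Agent.Run7.h931.RL

open Finset Filter
open Pool.Agent.Run7.h931.RS (Pw Fw one_le_Pw one_le_Fw wt wt_nonneg wt_sum wt_pair_le cheb)

/-- the shifts `≡ c` modulo `M` in the window -/
def cls (M c b q : ℕ) : Finset ℕ := (Ioc b (b + q)).filter fun v => v ≡ c [MOD M]

/-- the shifts which turn `n` into a prime -/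
def hitc (M c b q n : ℕ) : Finset ℕ := (cls M c b q).filter fun v => (n + v).Prime

lemma hitc_sub (M c b q n : ℕ) : hitc M c b q n ⊆ cls M c b q := filter_subset _ _

lemma cls_card (M c b q : ℕ) (hM : 1 ≤ M) : |((cls M c b q).card : ℝ) - q / M| ≤ 1 := by
  have hMr : (0 : ℝ) < M := by exact_mod_cast hM
  have blk : ∀ t : ℕ, (cls M c b (t * M)).card = t := by
    intro t
    induction t with
    | zero => simp [cls]
    | succ t ih =>
      have h1 : cls M c b ((t + 1) * M) = cls M c b (t * M) ∪ cls M c (b + t * M) M := by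
        ext v
        unfold cls
        simp only [mem_filter, mem_Ioc, mem_union]
        rw [show b + (t + 1) * M = b + t * M + M by ring]
        constructor
        · rintro ⟨⟨h1, h2⟩, h3⟩
          by_cases h4 : v ≤ b + t * M
          · exact Or.inl ⟨⟨h1, h4⟩, h3⟩
          · exact Or.inr ⟨⟨by omega, h2⟩, h3⟩
        · rintro (⟨⟨h1, h2⟩, h3⟩ | ⟨⟨h1, h2⟩, h3⟩)
          · exact ⟨⟨h1, by omega⟩, h3⟩
          · exact ⟨⟨by omega, h2⟩, h3⟩
      have h2 : Disjoint (cls M c b (t * M)) (cls M c (b + t * M) M) := by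
        rw [disjoint_left]
        intro v hv hv'
        unfold cls at hv hv'
        rw [mem_filter, mem_Ioc] at hv hv'
        omega
      have h3 : (cls M c (b + t * M) M).card = 1 := by
        obtain ⟨B, hB⟩ : ∃ B, B = b + t * M := ⟨_, rfl⟩
        rw [← hB, card_eq_one]
        refine ⟨B + 1 + (c + (M - 1) * (B + 1)) % M, ?_⟩
        have hlt : (c + (M - 1) * (B + 1)) % M < M := Nat.mod_lt _ hM
        have hmod : B + 1 + (c + (M - 1) * (B + 1)) % M ≡ c [MOD M] := by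
          have e1 : B + 1 + (c + (M - 1) * (B + 1)) % M ≡ B + 1 + (c + (M - 1) * (B + 1)) [MOD M] :=
            Nat.ModEq.add_left _ (Nat.mod_modEq _ _)
          refine e1.trans ?_
          have e2 : B + 1 + (c + (M - 1) * (B + 1)) = c + M * (B + 1) := by
            obtain ⟨M', rfl⟩ : ∃ M', M = M' + 1 := ⟨M - 1, by omega⟩
            rw [Nat.add_sub_cancel]
            ring
          rw [e2]
          exact (Nat.modEq_zero_iff_dvd.2 (dvd_mul_right M (B + 1))).add_left c |>.trans (by rw [add_zero])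
        ext v
        unfold cls
        rw [mem_filter, mem_Ioc, mem_singleton]
        constructor
        · rintro ⟨⟨h1, h2⟩, h3⟩
          have h4 : v ≡ B + 1 + (c + (M - 1) * (B + 1)) % M [MOD M] := h3.trans hmod.symm
          obtain ⟨v', hv'⟩ : ∃ v', v = B + 1 + v' := ⟨v - (B + 1), by omega⟩
          rw [hv'] at h4 ⊢
          have h5 : v' ≡ (c + (M - 1) * (B + 1)) % M [MOD M] := Nat.ModEq.add_left_cancel' _ h4
          have h6 : v' < M := by omega
          rw [Nat.ModEq, Nat.mod_eq_of_lt h6, Nat.mod_eq_of_lt hlt] at h5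
          rw [h5]
        · rintro rfl
          exact ⟨⟨by omega, by omega⟩, hmod⟩
      rw [h1, card_union_of_disjoint h2, ih, h3]
  have mono : ∀ q q' : ℕ, q ≤ q' → cls M c b q ⊆ cls M c b q' := by
    intro q q' h
    unfold cls
    apply filter_subset_filter
    exact Ioc_subset_Ioc_right (by omega)
  have h3 : (cls M c b q).card ≤ q / M + 1 := by
    rw [← blk (q / M + 1)]
    exact card_le_card (mono _ _ (by rw [mul_comm]; exact (Nat.lt_mul_div_succ q hM).le))
  have h4 : q / M ≤ (cls M c b q).card := by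
    rw [← blk (q / M)]
    exact card_le_card (mono _ _ (Nat.div_mul_le_self q M))
  have h5 : ((q / M : ℕ) : ℝ) ≤ q / M := Nat.cast_div_le
  have h6 : (q : ℝ) / M - 1 ≤ ((q / M : ℕ) : ℝ) := by
    have : (q : ℝ) < M * ((q / M : ℕ) + 1) := by exact_mod_cast Nat.lt_mul_div_succ q hM
    rw [sub_le_iff_le_add, div_le_iff₀ hMr]
    linarith
  have h3' : ((cls M c b q).card : ℝ) ≤ (q / M : ℕ) + 1 := by exact_mod_cast h3
  have h4' : ((q / M : ℕ) : ℝ) ≤ (cls M c b q).card := by exact_mod_cast h4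
  rw [abs_le]
  constructor <;> linarith

lemma hitc_card (M c b q n : ℕ) : (hitc M c b q n).card = Da M (n + c) (n + b) q := by
  unfold hitc cls Da
  rw [filter_filter]
  apply card_bij (fun v _ => n + v)
  · intro v hv
    rw [mem_filter, mem_Ioc] at hv ⊢
    exact ⟨by omega, hv.2.2, Nat.ModEq.add_left n hv.2.1⟩
  · intro v _ v' _ h
    simpa using h
  · intro t ht
    rw [mem_filter, mem_Ioc] at ht
    refine ⟨t - n, ?_, by omega⟩
    rw [mem_filter, mem_Ioc]
    have e : n + (t - n) = t := by omega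
    refine ⟨by omega, ?_, ?_⟩
    · have := ht.2.2
      rw [← e] at this
      exact Nat.ModEq.add_left_cancel' n this
    · rw [e]
      exact ht.2.1

lemma hitc_inter (M c b q n h : ℕ) : (hitc M c b q n ∩ hitc M c b q (n + h)).card = Ca M (n + c) (n + b) q h := by
  unfold hitc cls Ca
  rw [filter_filter, filter_filter]
  apply card_bij (fun v _ => n + v)
  · intro v hv
    rw [mem_inter, mem_filter, mem_filter, mem_Ioc] at hv
    rw [mem_filter, mem_Ioc]
    refine ⟨by omega, ⟨hv.1.2.2, ?_⟩, Nat.ModEq.add_left n hv.1.2.1⟩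
    rw [show n + v + h = n + h + v by ring]
    exact hv.2.2.2
  · intro v _ v' _ h
    simpa using h
  · intro t ht
    rw [mem_filter, mem_Ioc] at ht
    refine ⟨t - n, ?_, by omega⟩
    have e : n + (t - n) = t := by omega
    have hm : t - n ≡ c [MOD M] := by
      have := ht.2.2
      rw [← e] at this
      exact Nat.ModEq.add_left_cancel' n this
    rw [mem_inter, mem_filter, mem_filter, mem_Ioc]
    refine ⟨⟨by omega, hm, ?_⟩, by omega, hm, ?_⟩
    · rw [e]
      exact ht.2.1.1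
    · rw [show n + h + (t - n) = t + h by omega]
      exact ht.2.1.2

/-- no hits if `n + c` is not coprime to `M` -/
lemma hitc_empty (w M c b q n : ℕ) (hM : ∀ p : ℕ, p.Prime → (p ∣ M ↔ p ≤ w)) (hn : w < n) (hc : ¬ (n + c).Coprime M) :
    hitc M c b q n = ∅ := by
  unfold hitc cls
  rw [filter_filter, filter_eq_empty_iff]
  rintro v _ ⟨h1, h2⟩
  apply hc
  have h3 : n + v ≡ n + c [MOD M] := Nat.ModEq.add_left n h1
  rw [Nat.coprime_iff_gcd_eq_one, ← h3.gcd_eq]
  by_contra hne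
  obtain ⟨p, hp, hpd⟩ := Nat.exists_prime_and_dvd hne
  have h4 : p ∣ n + v := hpd.trans (Nat.gcd_dvd_left _ _)
  have h5 : p ∣ M := hpd.trans (Nat.gcd_dvd_right _ _)
  have h6 : p = n + v := (Nat.prime_dvd_prime_iff_eq hp h2).1 h4
  have h7 := (hM p hp).1 h5
  omega

/-- Mertens' product of `M` -/
lemma tot_P (w M : ℕ) (hM1 : 1 ≤ M) (hM : ∀ p : ℕ, p.Prime → (p ∣ M ↔ p ≤ w)) : (Nat.totient M : ℝ) * Pw w = M := by
  have h1 : M.primeFactors = (Icc 1 w).filter Nat.Prime := by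
    ext p
    rw [Nat.mem_primeFactors, mem_filter, mem_Icc]
    constructor
    · rintro ⟨h1, h2, _⟩
      exact ⟨⟨h1.pos, (hM p h1).1 h2⟩, h1⟩
    · rintro ⟨⟨_, h2⟩, h1⟩
      exact ⟨h1, (hM p h1).2 h2, by omega⟩
  have h2 := Nat.totient_mul_prod_primeFactors M
  unfold Pw
  rw [← h1]
  have h3 : (Nat.totient M : ℝ) * ∏ p ∈ M.primeFactors, (p : ℝ) = M * ∏ p ∈ M.primeFactors, ((p : ℝ) - 1) := by
    have : ((Nat.totient M * ∏ p ∈ M.primeFactors, p : ℕ) : ℝ) = ((M * ∏ p ∈ M.primeFactors, (p - 1) : ℕ) : ℝ) := by rw [h2]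
    push_cast at this
    rw [this]
    congr 1
    apply prod_congr rfl
    intro p hp
    rw [Nat.cast_sub (Nat.prime_of_mem_primeFactors hp).one_lt.le, Nat.cast_one]
  have h4 : ∏ p ∈ M.primeFactors, ((p : ℝ) - 1) ≠ 0 := by
    apply prod_ne_zero_iff.2
    intro p hp
    have : (2 : ℝ) ≤ p := by exact_mod_cast (Nat.prime_of_mem_primeFactors hp).two_le
    linarith
  rw [prod_div_distrib, mul_div_assoc', h3, mul_div_assoc, div_self h4, mul_one]

/-- the data of one coordinate with `n + c` coprime to `M` -/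
structure Cr (w M : ℕ) (L δ K : ℝ) (q c b n : ℕ) : Prop where
  hM1 : 1 ≤ M
  hM : ∀ p : ℕ, p.Prime → (p ∣ M ↔ p ≤ w)
  hL : 0 < L
  hq : 0 < q
  hδ : 0 < δ
  hδ1 : δ ≤ 1 / 4
  hKL : 4 * K ≤ δ * L
  hPL : 8 * Pw w ≤ δ * L
  hq2 : 4 * (M : ℝ) ≤ δ * q
  lo : (q / Nat.totient M : ℝ) / L - K * ((q / Nat.totient M : ℝ) / L ^ 2) ≤ Da M (n + c) (n + b) q
  hi : (Da M (n + c) (n + b) q : ℝ) ≤ (q / Nat.totient M : ℝ) / L + K * ((q / Nat.totient M : ℝ) / L ^ 2)

lemma Cr.qM {w M : ℕ} {L δ K : ℝ} {q c b n : ℕ} (h : Cr w M L δ K q c b n) :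
    (q / Nat.totient M : ℝ) = q / M * Pw w := by
  have h1 := tot_P w M h.hM1 h.hM
  have hφ : (0 : ℝ) < Nat.totient M := by exact_mod_cast Nat.totient_pos.2 h.hM1
  have hM0 : (0 : ℝ) < M := by exact_mod_cast h.hM1
  rw [div_mul_eq_mul_div, div_eq_div_iff hφ.ne' hM0.ne', ← h1]
  ring

lemma Cr.bds {w M : ℕ} {L δ K : ℝ} {q c b n : ℕ} (h : Cr w M L δ K q c b n) :
    ((hitc M c b q n).card : ℝ) ≤ (1 + δ / 4) * (q / M * (Pw w / L)) ∧
    (1 - δ / 4) * (q / M * (Pw w / L)) ≤ (hitc M c b q n).card ∧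
    (1 - δ / 4) * (q / M) ≤ ((cls M c b q).card : ℝ) ∧ ((cls M c b q).card : ℝ) ≤ (1 + δ / 4) * (q / M) ∧
    (0 : ℝ) < q / M := by
  have hL := h.hL
  have hP := one_le_Pw w
  have hq : (0 : ℝ) < q := by exact_mod_cast h.hq
  have hM0 : (0 : ℝ) < M := by exact_mod_cast h.hM1
  have e2 : K / L ≤ δ / 4 := by rw [div_le_iff₀ hL]; linarith [h.hKL]
  have hlo := h.lo
  have hhi := h.hi
  rw [h.qM] at hlo hhi
  rw [hitc_card]
  have e1 : K * (q / M * Pw w / L ^ 2) = (K / L) * (q / M * (Pw w / L)) := by field_simp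
  have e3 : (K / L) * (q / M * (Pw w / L)) ≤ (δ / 4) * (q / M * (Pw w / L)) := mul_le_mul_of_nonneg_right e2 (by positivity)
  have e4 : (q : ℝ) / M * Pw w / L = q / M * (Pw w / L) := by ring
  rw [e1, e4] at hlo hhi
  have h1 := abs_le.1 (cls_card M c b q h.hM1)
  have e5 : 1 ≤ δ / 4 * (q / M) := by
    rw [← mul_div_assoc, le_div_iff₀ hM0]
    linarith [h.hq2]
  refine ⟨by linarith, by linarith, by linarith, by linarith, by positivity⟩

lemma Cr.theta {w M : ℕ} {L δ K : ℝ} {q c b n : ℕ} (h : Cr w M L δ K q c b n) :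
    ((hitc M c b q n).card : ℝ) ≤ (δ / 4) * (cls M c b q).card := by
  obtain ⟨h1, _, h2, _, h3⟩ := h.bds
  have hL := h.hL
  have hδ := h.hδ
  have hδ1 := h.hδ1
  have hP := one_le_Pw w
  refine h1.trans (le_trans ?_ (mul_le_mul_of_nonneg_left h2 (by positivity)))
  have h5 : (1 + δ / 4) * (q / M * (Pw w / L)) = (q / M : ℝ) * ((1 + δ / 4) * Pw w / L) := by ring
  have h6 : δ / 4 * ((1 - δ / 4) * (q / M)) = (q / M : ℝ) * (δ / 4 * (1 - δ / 4)) := by ring
  rw [h5, h6]
  apply mul_le_mul_of_nonneg_left _ h3.le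
  rw [div_le_iff₀ hL]
  have h4 := h.hPL
  nlinarith

lemma Cr.upos {w M : ℕ} {L δ K : ℝ} {q c b n : ℕ} (h : Cr w M L δ K q c b n) : 0 < (cls M c b q).card := by
  obtain ⟨_, _, h2, _, h3⟩ := h.bds
  have hδ1 := h.hδ1
  have : (0 : ℝ) < (cls M c b q).card := lt_of_lt_of_le (mul_pos (by linarith) h3) h2
  exact_mod_cast this

/-- a common bound for one coordinate -/
lemma Cr.pair {w M : ℕ} {L δ K : ℝ} {q c b n n' : ℕ} (h : Cr w M L δ K q c b n) (h' : Cr w M L δ K q c b n') (Y : ℝ) (hY : 0 ≤ Y)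
    (hAA : ((hitc M c b q n ∩ hitc M c b q n').card : ℝ) - (hitc M c b q n).card * (hitc M c b q n').card / (cls M c b q).card ≤
      Y * (q / M)) :
    ∑ v ∈ cls M c b q, wt (cls M c b q) (hitc M c b q n) v * wt (cls M c b q) (hitc M c b q n') v ≤
      Real.exp ((1 + δ) * Y) * (cls M c b q).card := by
  have hδ := h.hδ
  have hδ1 := h.hδ1
  obtain ⟨_, _, h2, _, h3⟩ := h.bds
  refine (wt_pair_le (cls M c b q) (cls M c b q) (hitc M c b q n) (hitc M c b q n') subset_rfl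
    (hitc_sub M c b q n) (hitc_sub M c b q n') (δ / 4) (Y * (q / M)) (by positivity) (by linarith) h.upos
    h.theta h'.theta (by positivity) hAA).trans ?_
  apply mul_le_mul_of_nonneg_right _ (Nat.cast_nonneg _)
  apply Real.exp_le_exp.2
  have h1 : (0 : ℝ) < (1 - δ / 4) ^ 2 := by
    have : 0 < 1 - δ / 4 := by linarith
    positivity
  have hu : (0 : ℝ) < (cls M c b q).card := by exact_mod_cast h.upos
  rw [div_le_iff₀ (by positivity)]
  have h4 : 1 ≤ (1 + δ) * (1 - δ / 4) ^ 3 := by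
    have : 1 - 3 * (δ / 4) ≤ (1 - δ / 4) ^ 3 := by nlinarith [mul_nonneg hδ.le hδ.le, mul_nonneg (mul_nonneg hδ.le hδ.le) (sub_nonneg.2 hδ1)]
    nlinarith
  calc Y * (q / M) = Y * (q / M) * 1 := by ring
    _ ≤ Y * (q / M) * ((1 + δ) * (1 - δ / 4) ^ 3) := mul_le_mul_of_nonneg_left h4 (by positivity)
    _ = ((1 + δ) * Y * (1 - δ / 4) ^ 2) * ((1 - δ / 4) * (q / M)) := by ring
    _ ≤ ((1 + δ) * Y * (1 - δ / 4) ^ 2) * (cls M c b q).card := mul_le_mul_of_nonneg_left h2 (by positivity)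
    _ = _ := by ring

lemma Cr.diag {w M : ℕ} {L δ K : ℝ} {q c b n : ℕ} (h : Cr w M L δ K q c b n) :
    ∑ v ∈ cls M c b q, wt (cls M c b q) (hitc M c b q n) v * wt (cls M c b q) (hitc M c b q n) v ≤
      Real.exp ((1 + 3 * δ) * (Pw w / L)) * (cls M c b q).card := by
  have hδ := h.hδ
  have hδ1 := h.hδ1
  have hL := h.hL
  have hP := one_le_Pw w
  obtain ⟨h1, _, _, _, h3⟩ := h.bds
  refine (h.pair h ((1 + δ / 4) * (Pw w / L)) (by positivity) ?_).trans ?_
  · rw [inter_self]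
    have h2 : 0 ≤ ((hitc M c b q n).card : ℝ) * (hitc M c b q n).card / (cls M c b q).card := by positivity
    have h4 : (1 + δ / 4) * (q / M * (Pw w / L)) = (1 + δ / 4) * (Pw w / L) * (q / M) := by ring
    linarith
  · apply mul_le_mul_of_nonneg_right _ (Nat.cast_nonneg _)
    apply Real.exp_le_exp.2
    rw [← mul_assoc]
    apply mul_le_mul_of_nonneg_right _ (by positivity)
    nlinarith

lemma Cr.bad {w M : ℕ} {L δ K : ℝ} {q c b n h : ℕ} (hn : Cr w M L δ K q c b n) (hn' : Cr w M L δ K q c b (n + h)) (B : ℝ) (hB : 0 ≤ B)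
    (hC : (Ca M (n + c) (n + b) q h : ℝ) ≤ B * (q / L ^ 2)) :
    ∑ v ∈ cls M c b q, wt (cls M c b q) (hitc M c b q n) v * wt (cls M c b q) (hitc M c b q (n + h)) v ≤
      Real.exp (2 * M * B / L ^ 2) * (cls M c b q).card := by
  have hδ := hn.hδ
  have hδ1 := hn.hδ1
  have hL := hn.hL
  have hM0 : (0 : ℝ) < M := by exact_mod_cast hn.hM1
  refine (hn.pair hn' (M * B / L ^ 2) (by positivity) ?_).trans ?_
  · rw [hitc_inter]
    have h2 : 0 ≤ ((hitc M c b q n).card : ℝ) * (hitc M c b q (n + h)).card / (cls M c b q).card := by positivity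
    have h3 : B * (q / L ^ 2) = M * B / L ^ 2 * (q / M) := by field_simp
    linarith
  · apply mul_le_mul_of_nonneg_right _ (Nat.cast_nonneg _)
    apply Real.exp_le_exp.2
    rw [mul_div_assoc']
    apply div_le_div_of_nonneg_right _ (by positivity)
    have : 0 ≤ M * B := by positivity
    nlinarith

lemma Cr.good {w M : ℕ} {L δ K : ℝ} {q c b n h : ℕ} (hn : Cr w M L δ K q c b n) (hn' : Cr w M L δ K q c b (n + h)) (F : ℝ) (hF : 1 ≤ F)
    (hC : (Ca M (n + c) (n + b) q h : ℝ) ≤ (1 + δ) * (Pw w / Nat.totient M * F) * (q / L ^ 2)) :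
    ∑ v ∈ cls M c b q, wt (cls M c b q) (hitc M c b q n) v * wt (cls M c b q) (hitc M c b q (n + h)) v ≤
      Real.exp (Pw w * (2 * Pw w * (F - 1) + 4 * δ * Pw w) / L ^ 2) * (cls M c b q).card := by
  have hδ := hn.hδ
  have hδ1 := hn.hδ1
  have hL := hn.hL
  have hP := one_le_Pw w
  have hM0 : (0 : ℝ) < M := by exact_mod_cast hn.hM1
  obtain ⟨_, l1, _, u1, h3⟩ := hn.bds
  obtain ⟨_, l2, _, _, _⟩ := hn'.bds
  have hu : (0 : ℝ) < (cls M c b q).card := by exact_mod_cast hn.upos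
  have hFP : 0 ≤ Pw w * (F - 1) := mul_nonneg (by linarith) (by linarith)
  have e0 : (1 + δ) * (Pw w * F) - (1 - δ) * Pw w = (1 + δ) * (Pw w * (F - 1)) + 2 * δ * Pw w := by ring
  have hY0 : 0 ≤ (1 + δ) * (Pw w * F) - (1 - δ) * Pw w := by
    rw [e0]
    positivity
  obtain ⟨Q, hQ⟩ : ∃ Q : ℝ, Q = q / M := ⟨_, rfl⟩
  have hqφ : (Pw w / Nat.totient M * F) * (q / L ^ 2) = Q * (Pw w * (Pw w * F)) / L ^ 2 := by
    have h4 := hn.qM
    rw [hQ]
    calc (Pw w / Nat.totient M * F) * (q / L ^ 2) = (q / Nat.totient M : ℝ) * (Pw w * F) / L ^ 2 := by ring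
      _ = _ := by rw [h4]; ring
  rw [← hQ] at l1 l2 u1 h3
  refine (hn.pair hn' (Pw w * ((1 + δ) * (Pw w * F) - (1 - δ) * Pw w) / L ^ 2) (by positivity) ?_).trans ?_
  · rw [hitc_inter, ← hQ]
    have h4 : 0 ≤ (1 - δ / 4) * (Q * (Pw w / L)) := mul_nonneg (by linarith) (by positivity)
    have h5 : ((1 - δ / 4) * (Q * (Pw w / L))) * ((1 - δ / 4) * (Q * (Pw w / L))) ≤
        ((hitc M c b q n).card : ℝ) * (hitc M c b q (n + h)).card := mul_le_mul l1 l2 h4 (h4.trans l1)
    have h6 : (1 - δ) * (Pw w * Pw w) * Q / L ^ 2 ≤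
        ((hitc M c b q n).card : ℝ) * (hitc M c b q (n + h)).card / (cls M c b q).card := by
      rw [le_div_iff₀ hu]
      refine le_trans ?_ h5
      calc (1 - δ) * (Pw w * Pw w) * Q / L ^ 2 * (cls M c b q).card ≤
          (1 - δ) * (Pw w * Pw w) * Q / L ^ 2 * ((1 + δ / 4) * Q) := by
            apply mul_le_mul_of_nonneg_left u1
            have : 0 ≤ 1 - δ := by linarith
            positivity
        _ = ((1 - δ) * (1 + δ / 4)) * (Q * (Pw w / L)) ^ 2 := by field_simp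
        _ ≤ (1 - δ / 4) ^ 2 * (Q * (Pw w / L)) ^ 2 := by
            apply mul_le_mul_of_nonneg_right _ (by positivity)
            nlinarith
        _ = _ := by ring
    have h7 : (1 + δ) * (Pw w / Nat.totient M * F) * (q / L ^ 2) = (1 + δ) * (Q * (Pw w * (Pw w * F)) / L ^ 2) := by
      rw [← hqφ]
      ring
    rw [h7] at hC
    have h8 : Pw w * ((1 + δ) * (Pw w * F) - (1 - δ) * Pw w) / L ^ 2 * Q =
        (1 + δ) * (Q * (Pw w * (Pw w * F)) / L ^ 2) - (1 - δ) * (Pw w * Pw w) * Q / L ^ 2 := by ring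
    linarith
  · apply mul_le_mul_of_nonneg_right _ (Nat.cast_nonneg _)
    apply Real.exp_le_exp.2
    rw [mul_div_assoc', e0]
    apply div_le_div_of_nonneg_right _ (by positivity)
    have h1 : (1 + δ) * (Pw w * ((1 + δ) * (Pw w * (F - 1)) + 2 * δ * Pw w)) =
        Pw w * ((1 + δ) ^ 2 * (Pw w * (F - 1)) + (1 + δ) * (2 * δ * Pw w)) := by ring
    rw [h1]
    apply mul_le_mul_of_nonneg_left _ (by linarith)
    have h2 : (1 + δ) ^ 2 * (Pw w * (F - 1)) ≤ 2 * (Pw w * (F - 1)) := mul_le_mul_of_nonneg_right (by nlinarith) hFP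
    have h3 : (1 + δ) * (2 * δ * Pw w) ≤ 2 * (2 * δ * Pw w) := mul_le_mul_of_nonneg_right (by linarith) (by positivity)
    linarith

/-- the size of one weight -/
lemma Cr.wt_le {w M : ℕ} {L δ K : ℝ} {q c b n : ℕ} (h : Cr w M L δ K q c b n) (v : ℕ) (hv : v ∈ cls M c b q) :
    wt (cls M c b q) (hitc M c b q n) v ≤ Real.exp ((1 + 3 * δ) * (Pw w / L)) := by
  classical
  have hδ := h.hδ
  have hδ1 := h.hδ1
  have hL := h.hL
  have hP := one_le_Pw w
  unfold wt
  by_cases h1 : v ∈ hitc M c b q n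
  · rw [if_pos h1]
    exact (Real.exp_pos _).le
  · rw [if_neg h1, if_pos hv]
    obtain ⟨h4, _, h5, _, hq⟩ := h.bds
    have h3 := h.theta
    obtain ⟨U, hU⟩ : ∃ U : ℝ, U = (cls M c b q).card := ⟨_, rfl⟩
    obtain ⟨A, hA⟩ : ∃ A : ℝ, A = (hitc M c b q n).card := ⟨_, rfl⟩
    obtain ⟨Q, hQ⟩ : ∃ Q : ℝ, Q = q / M := ⟨_, rfl⟩
    rw [← hU, ← hA] at h3 ⊢
    rw [← hA, ← hQ] at h4
    rw [← hU, ← hQ] at h5
    rw [← hQ] at hq
    have hU0 : 0 < U := lt_of_lt_of_le (mul_pos (by linarith) hq) h5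
    have h6 : (1 - δ / 4) * ((1 - δ / 4) * Q) ≤ U - A := by
      have : (1 - δ / 4) * ((1 - δ / 4) * Q) ≤ (1 - δ / 4) * U := mul_le_mul_of_nonneg_left h5 (by linarith)
      linarith
    have h7 : 0 < (1 - δ / 4) * ((1 - δ / 4) * Q) := mul_pos (by linarith) (mul_pos (by linarith) hq)
    have h8 : 0 < U - A := by linarith
    have h9 : U / (U - A) = A / (U - A) + 1 := by field_simp; ring
    rw [h9]
    refine (Real.add_one_le_exp _).trans (Real.exp_le_exp.2 ?_)
    calc A / (U - A) ≤ ((1 + δ / 4) * (Q * (Pw w / L))) / ((1 - δ / 4) * ((1 - δ / 4) * Q)) := by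
          apply div_le_div₀ (by positivity) h4 h7 h6
      _ = ((1 + δ / 4) / (1 - δ / 4) ^ 2) * (Pw w / L) := by
          have : 1 - δ / 4 ≠ 0 := by linarith
          field_simp
      _ ≤ (1 + 3 * δ) * (Pw w / L) := by
          apply mul_le_mul_of_nonneg_right _ (by positivity)
          have : 0 < (1 - δ / 4) ^ 2 := by
            have : 0 < 1 - δ / 4 := by linarith
            positivity
          rw [div_le_iff₀ this]
          nlinarith [mul_nonneg hδ.le (sub_nonneg.2 hδ1), mul_nonneg (mul_nonneg hδ.le hδ.le) hδ.le]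

/-- coordinates without hits have trivial weights -/
lemma wt_empty (U : Finset ℕ) (hU : 0 < U.card) (v : ℕ) : wt U ∅ v = 1 := by
  unfold wt
  rw [if_neg (by simp)]
  split_ifs
  · rw [card_empty, Nat.cast_zero, sub_zero, div_self]
    exact_mod_cast hU.ne'
  · rfl

end Pool.Agent.Run7.h931.RL
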