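import Pool.Agent.Run7.h931.RS.Nt2
import Pool.Agent.Run7.h931.RS.Core

/-!
# Random shifts in residue classes, part 1: primes in progressions in windows
-/

set_option autoImplicit false

namespace Pool.Agent.Run7.h931.RL

open Finset Filter
open Pool.Agent.Run7.h931.RS (Pw Fw)
open Pool.Agent.H373R2.T7 (lam_ap ev_L' ev_log')

/-- the number of the primes `≡ r` modulo `M` in `(x, x + q]` -/
def Da (M r x q : ℕ) : ℕ := ((Ioc x (x + q)).filter fun t => t.Prime ∧ t ≡ r [MOD M]).card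

noncomputable def tha (M r x q : ℕ) : ℝ := ∑ p ∈ (Ioc x (x + q)).filter (fun t => t.Prime ∧ t ≡ r [MOD M]), Real.log p

noncomputable def tp (M r y : ℕ) : ℝ := ∑ p ∈ (Icc 1 y).filter (fun t => t.Prime ∧ t ≡ r [MOD M]), Real.log p

lemma tha_eq (M r x q : ℕ) : tha M r x q = tp M r (x + q) - tp M r x := by
  unfold tha tp
  rw [eq_sub_iff_add_eq]
  have h : (Icc 1 (x + q)).filter (fun t => t.Prime ∧ t ≡ r [MOD M]) =
      (Ioc x (x + q)).filter (fun t => t.Prime ∧ t ≡ r [MOD M]) ∪ (Icc 1 x).filter (fun t => t.Prime ∧ t ≡ r [MOD M]) := by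
    ext p
    simp only [mem_filter, mem_Ioc, mem_Icc, mem_union]
    constructor
    · rintro ⟨⟨a, b⟩, c⟩
      by_cases hh : x < p
      · exact Or.inl ⟨⟨hh, b⟩, c⟩
      · exact Or.inr ⟨⟨a, not_lt.1 hh⟩, c⟩
    · rintro (⟨⟨a, b⟩, c⟩ | ⟨⟨a, b⟩, c⟩)
      · exact ⟨⟨c.1.pos, b⟩, c⟩
      · exact ⟨⟨a, by omega⟩, c⟩
  rw [h, sum_union]
  rw [disjoint_left]
  intro p h1 h2
  rw [mem_filter, mem_Ioc] at h1
  rw [mem_filter, mem_Icc] at h2
  omega

lemma psi_sum (y : ℕ) : Chebyshev.psi (y : ℝ) = ∑ n ∈ Icc 1 y, ArithmeticFunction.vonMangoldt n := by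
  unfold Chebyshev.psi
  rw [Nat.floor_natCast]
  rfl

lemma theta_sum (y : ℕ) : Chebyshev.theta (y : ℝ) = ∑ n ∈ (Icc 1 y).filter Nat.Prime, Real.log n := by
  unfold Chebyshev.theta
  rw [Nat.floor_natCast]
  rfl

/-- the prime powers do not matter -/
lemma tp_psi (M r y : ℕ) : tp M r y ≤ ∑ n ∈ (Icc 1 y).filter (fun n => n ≡ r [MOD M]), ArithmeticFunction.vonMangoldt n ∧
    ∑ n ∈ (Icc 1 y).filter (fun n => n ≡ r [MOD M]), ArithmeticFunction.vonMangoldt n ≤
      tp M r y + (Chebyshev.psi (y : ℝ) - Chebyshev.theta (y : ℝ)) := by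
  classical
  have h1 : ∑ n ∈ (Icc 1 y).filter (fun n => n ≡ r [MOD M]), ArithmeticFunction.vonMangoldt n =
      tp M r y + ∑ n ∈ (Icc 1 y).filter (fun n => n ≡ r [MOD M] ∧ ¬ n.Prime), ArithmeticFunction.vonMangoldt n := by
    rw [← sum_filter_add_sum_filter_not ((Icc 1 y).filter (fun n => n ≡ r [MOD M])) Nat.Prime, filter_filter, filter_filter]
    congr 1
    unfold tp
    apply sum_congr
    · apply filter_congr
      intro n _
      tauto
    · intro n hn
      rw [mem_filter] at hn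
      exact ArithmeticFunction.vonMangoldt_apply_prime hn.2.1
  have h2 : Chebyshev.psi (y : ℝ) - Chebyshev.theta (y : ℝ) =
      ∑ n ∈ (Icc 1 y).filter (fun n => ¬ n.Prime), ArithmeticFunction.vonMangoldt n := by
    rw [psi_sum, theta_sum, ← sum_filter_add_sum_filter_not (Icc 1 y) Nat.Prime]
    have : ∑ n ∈ (Icc 1 y).filter Nat.Prime, ArithmeticFunction.vonMangoldt n = ∑ n ∈ (Icc 1 y).filter Nat.Prime, Real.log n :=
      sum_congr rfl fun n hn => ArithmeticFunction.vonMangoldt_apply_prime (mem_filter.1 hn).2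
    rw [this]
    ring
  have h3 : 0 ≤ ∑ n ∈ (Icc 1 y).filter (fun n => n ≡ r [MOD M] ∧ ¬ n.Prime), ArithmeticFunction.vonMangoldt n :=
    sum_nonneg fun _ _ => ArithmeticFunction.vonMangoldt_nonneg
  have h4 : ∑ n ∈ (Icc 1 y).filter (fun n => n ≡ r [MOD M] ∧ ¬ n.Prime), ArithmeticFunction.vonMangoldt n ≤
      ∑ n ∈ (Icc 1 y).filter (fun n => ¬ n.Prime), ArithmeticFunction.vonMangoldt n := by
    apply sum_le_sum_of_subset_of_nonneg
    · intro n hn
      rw [mem_filter] at hn ⊢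
      exact ⟨hn.1, hn.2.2⟩
    · exact fun _ _ _ => ArithmeticFunction.vonMangoldt_nonneg
  rw [h1, h2]
  constructor <;> linarith

/-- the prime number theorem for progressions in windows -/
theorem tha_win (T U M : ℕ) (hM : 1 ≤ M) : ∀ᶠ N : ℕ in atTop, ∀ r : ℕ, r.Coprime M → ∀ x q : ℕ, x ≤ (T + 1) * N → q ≤ N →
    |tha M r x q - q / Nat.totient M| ≤ N / Real.log N ^ U := by
  obtain ⟨n1, h1⟩ := lam_ap 1 (U + 1)
  obtain ⟨n2, h2⟩ := ev_log' (U + 1) (16 * (T + 2))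
  obtain ⟨n3, h3⟩ := ev_L' (8 * (T + 2) + M)
  filter_upwards [eventually_ge_atTop n1, eventually_ge_atTop n2, eventually_ge_atTop n3, eventually_ge_atTop 3] with
    N g1 g2 g3 g4 r hr x q hx hq
  obtain ⟨X, hX⟩ : ∃ X : ℕ, X = (T + 2) * N := ⟨_, rfl⟩
  have hNX : N ≤ X := by rw [hX]; exact Nat.le_mul_of_pos_left _ (by omega)
  have hNr : (3 : ℝ) ≤ N := by exact_mod_cast g4
  have a2 := h2 N g2
  have a3 := h3 N g3
  obtain ⟨L, hL⟩ : ∃ L, L = Real.log (N : ℝ) := ⟨_, rfl⟩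
  rw [← hL] at a2 a3 ⊢
  have hT : (0 : ℝ) ≤ T := Nat.cast_nonneg T
  have hMr : (1 : ℝ) ≤ M := by exact_mod_cast hM
  have hL1 : 16 ≤ L := by linarith
  have hXr : (X : ℝ) = (T + 2) * N := by rw [hX]; push_cast; ring
  have hX0 : (0 : ℝ) < X := by rw [hXr]; positivity
  have hLX : L ≤ Real.log X := by
    rw [hL]
    exact Real.log_le_log (by linarith) (by exact_mod_cast hNX)
  have hLX2 : Real.log X ≤ 2 * L := by
    rw [hXr, Real.log_mul (by positivity) (by positivity), ← hL]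
    have : Real.log ((T : ℝ) + 2) ≤ T + 2 := (Real.log_le_sub_one_of_pos (by linarith)).trans (by linarith)
    linarith
  have key : ∀ y : ℕ, y ≤ X → |tp M r y - y / Nat.totient M| ≤ N / (2 * L ^ U) := by
    intro y hy
    have b1 := h1 X (g1.trans hNX) M hM (by rw [pow_one]; linarith) r y hy
    rw [if_pos hr] at b1
    obtain ⟨b2a, b2b⟩ := tp_psi M r y
    rcases Nat.eq_zero_or_pos y with hy0 | hy0
    · subst hy0
      unfold tp
      simp only [Nat.cast_zero, zero_div, sub_zero]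
      rw [show (Icc 1 0 : Finset ℕ) = ∅ by simp, filter_empty, sum_empty, abs_zero]
      positivity
    have hyr : (1 : ℝ) ≤ y := by exact_mod_cast hy0
    have b3 := Chebyshev.psi_sub_theta_le hyr
    have b5 : √(y : ℝ) ≤ (T + 2) * √(N : ℝ) := by
      rw [Real.sqrt_le_left (by positivity), mul_pow, Real.sq_sqrt (Nat.cast_nonneg N)]
      have : (y : ℝ) ≤ X := by exact_mod_cast hy
      rw [hXr] at this
      nlinarith
    have b6 : Real.log y ≤ 2 * L := (Real.log_le_log (by linarith) (by exact_mod_cast hy)).trans hLX2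
    have b7 : 2 * √(y : ℝ) * Real.log y ≤ 2 * ((T + 2) * √(N : ℝ)) * (2 * L) := by
      apply mul_le_mul _ b6 (Real.log_nonneg hyr) (by positivity)
      linarith
    have b8 : 2 * ((T + 2) * √(N : ℝ)) * (2 * L) ≤ N / (4 * L ^ U) := by
      rw [le_div_iff₀ (by positivity)]
      have c1 : √(N : ℝ) * √(N : ℝ) = N := Real.mul_self_sqrt (Nat.cast_nonneg N)
      have c2 : 0 ≤ √(N : ℝ) := Real.sqrt_nonneg _
      calc 2 * ((T + 2) * √(N : ℝ)) * (2 * L) * (4 * L ^ U) = √(N : ℝ) * (16 * (T + 2) * L ^ (U + 1)) := by rw [pow_succ]; ring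
        _ ≤ √(N : ℝ) * √(N : ℝ) := mul_le_mul_of_nonneg_left a2 c2
        _ = N := c1
    have b9 : (X : ℝ) / Real.log X ^ (U + 1) ≤ N / (4 * L ^ U) := by
      calc (X : ℝ) / Real.log X ^ (U + 1) ≤ X / L ^ (U + 1) := by
            apply div_le_div_of_nonneg_left hX0.le (by positivity)
            exact pow_le_pow_left₀ (by linarith) hLX _
        _ ≤ _ := by
            rw [div_le_div_iff₀ (by positivity) (by positivity), hXr]
            have : (0 : ℝ) ≤ N * L ^ U := by positivity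
            calc ((T : ℝ) + 2) * N * (4 * L ^ U) = (N * L ^ U) * (4 * (T + 2)) := by ring
              _ ≤ (N * L ^ U) * L := mul_le_mul_of_nonneg_left (by linarith) this
              _ = _ := by rw [pow_succ]; ring
    have b10 : (N : ℝ) / (4 * L ^ U) + N / (4 * L ^ U) = N / (2 * L ^ U) := by
      field_simp
      ring
    rw [abs_le] at b1 ⊢
    constructor <;> linarith [b1.1, b1.2]
  have c1 := key (x + q) (by rw [hX]; nlinarith)
  have c2 := key x (by rw [hX]; nlinarith)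
  rw [tha_eq]
  have e : (N : ℝ) / L ^ U = N / (2 * L ^ U) + N / (2 * L ^ U) := by field_simp; ring
  rw [e]
  rw [abs_le] at c1 c2 ⊢
  push_cast at c1 c2 ⊢
  rw [add_div] at c1
  constructor <;> linarith [c1.1, c1.2, c2.1, c2.2]

lemma Da_le_th (M r x q : ℕ) (Y : ℝ) (hY : ((x + q : ℕ) : ℝ) ≤ Y) : tha M r x q ≤ Da M r x q * Real.log Y := by
  unfold tha Da
  rw [← nsmul_eq_mul, ← sum_const]
  apply sum_le_sum
  intro p hp
  rw [mem_filter, mem_Ioc] at hp
  apply Real.log_le_log (by exact_mod_cast hp.2.1.pos)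
  exact le_trans (by exact_mod_cast hp.1.2) hY

lemma th_le_Da (M r x q : ℕ) (Y : ℝ) (hY0 : 0 < Y) (hY : Y ≤ x) : Da M r x q * Real.log Y ≤ tha M r x q := by
  unfold tha Da
  rw [← nsmul_eq_mul, ← sum_const]
  apply sum_le_sum
  intro p hp
  rw [mem_filter, mem_Ioc] at hp
  apply Real.log_le_log hY0
  exact hY.trans (by exact_mod_cast hp.1.1.le)

/-- lower bound -/
theorem pa_lo (T a M : ℕ) (hM : 1 ≤ M) : ∃ K : ℝ, 0 ≤ K ∧ ∀ᶠ N : ℕ in atTop, ∀ r : ℕ, r.Coprime M → ∀ x q : ℕ, x ≤ (T + 1) * N →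
    (N : ℝ) ≤ q * Real.log N ^ a → q ≤ N →
    (q / Nat.totient M : ℝ) / Real.log N - K * ((q / Nat.totient M : ℝ) / Real.log N ^ 2) ≤ Da M r x q := by
  have hlT : 0 ≤ Real.log ((T : ℝ) + 2) := Real.log_nonneg (by linarith [Nat.cast_nonneg (α := ℝ) T])
  refine ⟨1 + Real.log (T + 2), by linarith, ?_⟩
  obtain ⟨n3, h3⟩ := ev_L' (4 + M)
  filter_upwards [tha_win T (a + 2) M hM, eventually_ge_atTop n3, eventually_ge_atTop 3] with N h1 g3 g4 r hr x q hx hqa hq
  have hNr : (3 : ℝ) ≤ N := by exact_mod_cast g4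
  have a3 := h3 N g3
  have b1 := h1 r hr x q hx hq
  obtain ⟨L, hL⟩ : ∃ L, L = Real.log (N : ℝ) := ⟨_, rfl⟩
  rw [← hL] at a3 b1 hqa ⊢
  have hM0 : (0 : ℝ) ≤ M := Nat.cast_nonneg M
  have hL0 : 0 < L := by linarith
  have hT : (0 : ℝ) ≤ T := Nat.cast_nonneg T
  have b2 := Da_le_th M r x q ((T + 2) * N) (by
    have : x + q ≤ (T + 2) * N := by nlinarith
    exact_mod_cast this)
  rw [Real.log_mul (by positivity) (by positivity), ← hL] at b2
  obtain ⟨c, hc⟩ : ∃ c, c = Real.log ((T : ℝ) + 2) := ⟨_, rfl⟩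
  rw [← hc] at b2 hlT ⊢
  have hφ0 : (0 : ℝ) < Nat.totient M := by exact_mod_cast Nat.totient_pos.2 hM
  have hφ : (Nat.totient M : ℝ) ≤ L := by
    have : (Nat.totient M : ℝ) ≤ M := by exact_mod_cast Nat.totient_le M
    linarith
  obtain ⟨Q, hQ⟩ : ∃ Q : ℝ, Q = q / Nat.totient M := ⟨_, rfl⟩
  rw [← hQ] at b1 ⊢
  have hq0 : (0 : ℝ) ≤ Q := by rw [hQ]; positivity
  have b3 : (N : ℝ) / L ^ (a + 2) ≤ Q / L := by
    rw [hQ, div_div, div_le_div_iff₀ (by positivity) (by positivity), pow_succ, pow_succ]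
    calc (N : ℝ) * (Nat.totient M * L) ≤ (q * L ^ a) * (L * L) := by
          apply mul_le_mul hqa _ (by positivity) (by positivity)
          exact mul_le_mul_of_nonneg_right hφ hL0.le
      _ = _ := by ring
  have b4 : Q - Q / L ≤ Da M r x q * (c + L) := by linarith [(abs_le.1 b1).1]
  have b5 : (Q / L - (1 + c) * (Q / L ^ 2)) * (c + L) ≤ Q - Q / L := by
    have e : (Q / L - (1 + c) * (Q / L ^ 2)) * (c + L) = Q - Q / L - (Q / L ^ 2) * ((1 + c) * c) := by
      field_simp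
      ring
    rw [e]
    have : 0 ≤ (Q / L ^ 2) * ((1 + c) * c) := by positivity
    linarith
  have b6 : (Q / L - (1 + c) * (Q / L ^ 2)) * (c + L) ≤ Da M r x q * (c + L) := b5.trans b4
  exact le_of_mul_le_mul_right b6 (by linarith)

/-- upper bound -/
theorem pa_hi (T a M : ℕ) (hM : 1 ≤ M) : ∃ K : ℝ, 0 ≤ K ∧ ∀ᶠ N : ℕ in atTop, ∀ r : ℕ, r.Coprime M → ∀ x q : ℕ,
    x ≤ (T + 1) * N → N ≤ 2 * x → (N : ℝ) ≤ q * Real.log N ^ a → q ≤ N →
    (Da M r x q : ℝ) ≤ (q / Nat.totient M : ℝ) / Real.log N + K * ((q / Nat.totient M : ℝ) / Real.log N ^ 2) := by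
  refine ⟨5, by norm_num, ?_⟩
  obtain ⟨n3, h3⟩ := ev_L' (8 + M)
  filter_upwards [tha_win T (a + 2) M hM, eventually_ge_atTop n3, eventually_ge_atTop 3] with N h1 g3 g4 r hr x q hx hxN hqa hq
  have hNr : (3 : ℝ) ≤ N := by exact_mod_cast g4
  have a3 := h3 N g3
  have b1 := h1 r hr x q hx hq
  obtain ⟨L, hL⟩ : ∃ L, L = Real.log (N : ℝ) := ⟨_, rfl⟩
  rw [← hL] at a3 b1 hqa ⊢
  have hM0 : (0 : ℝ) ≤ M := Nat.cast_nonneg M
  have hx2 : (N : ℝ) ≤ 2 * x := by exact_mod_cast hxN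
  have b2 := th_le_Da M r x q (N / 2) (by positivity) (by linarith)
  rw [Real.log_div (by positivity) (by norm_num), ← hL] at b2
  obtain ⟨c, hc⟩ : ∃ c, c = Real.log (2 : ℝ) := ⟨_, rfl⟩
  rw [← hc] at b2
  have hc0 : 0 ≤ c := by rw [hc]; exact Real.log_nonneg (by norm_num)
  have hc1 : c ≤ 1 := by rw [hc]; linarith [Real.log_two_lt_d9]
  have hL0 : 0 < L := by linarith
  have hφ0 : (0 : ℝ) < Nat.totient M := by exact_mod_cast Nat.totient_pos.2 hM
  have hφ : (Nat.totient M : ℝ) ≤ L := by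
    have : (Nat.totient M : ℝ) ≤ M := by exact_mod_cast Nat.totient_le M
    linarith
  obtain ⟨Q, hQ⟩ : ∃ Q : ℝ, Q = q / Nat.totient M := ⟨_, rfl⟩
  rw [← hQ] at b1 ⊢
  have hq0 : (0 : ℝ) ≤ Q := by rw [hQ]; positivity
  have b3 : (N : ℝ) / L ^ (a + 2) ≤ Q / L := by
    rw [hQ, div_div, div_le_div_iff₀ (by positivity) (by positivity), pow_succ, pow_succ]
    calc (N : ℝ) * (Nat.totient M * L) ≤ (q * L ^ a) * (L * L) := by
          apply mul_le_mul hqa _ (by positivity) (by positivity)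
          exact mul_le_mul_of_nonneg_right hφ hL0.le
      _ = _ := by ring
  have b4 : Da M r x q * (L - c) ≤ Q + Q / L := by linarith [(abs_le.1 b1).2]
  have b5 : Q + Q / L ≤ (Q / L + 5 * (Q / L ^ 2)) * (L - c) := by
    have e : (Q / L + 5 * (Q / L ^ 2)) * (L - c) = Q + Q / L + (Q / L ^ 2) * (4 * L - c * L - 5 * c) := by
      field_simp
      ring
    rw [e]
    have : 0 ≤ (Q / L ^ 2) * (4 * L - c * L - 5 * c) := by
      apply mul_nonneg (by positivity)
      nlinarith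
    linarith
  exact le_of_mul_le_mul_right (b4.trans b5) (by linarith)

end Pool.Agent.Run7.h931.RL
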