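import Pool.Agent.Run7.h931.RL.Two

/-!
# Random shifts in residue classes, part 5: first moments; what is left of the residues
-/

set_option autoImplicit false

namespace Pool.Agent.Run7.h931.RL

open Finset Filter
open Pool.Agent.Run7.h931.RS (Pw Fw one_le_Pw one_le_Fw wt wt_nonneg ev_log sv first)

/-- how many of the `n + c j` are coprime to `M` -/
def lf {m : ℕ} (M : ℕ) (c : Fin m → ℕ) (n : ℕ) : ℕ := (univ.filter fun j => (n + c j).Coprime M).card

/-- the least of these numbers -/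
noncomputable def rest {m : ℕ} (M : ℕ) (c : Fin m → ℕ) : ℕ := sInf (Set.range fun n : ℕ => lf M c n)

lemma rest_le {m : ℕ} (M : ℕ) (c : Fin m → ℕ) (n : ℕ) : rest M c ≤ lf M c n := Nat.sInf_le ⟨n, rfl⟩

lemma lf_add {m : ℕ} (M : ℕ) (c : Fin m → ℕ) (n k : ℕ) : lf M c (n + M * k) = lf M c n := by
  unfold lf
  congr 1
  apply filter_congr
  intro j _
  rw [show n + M * k + c j = n + c j + M * k by ring]
  exact Nat.coprime_add_mul_left_left _ _ _

lemma rest_at {m : ℕ} (M : ℕ) (hM : 1 ≤ M) (c : Fin m → ℕ) : ∃ ρ < M, lf M c ρ = rest M c := by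
  obtain ⟨n, hn⟩ := Nat.sInf_mem (⟨lf M c 0, ⟨0, rfl⟩⟩ : (Set.range fun n : ℕ => lf M c n).Nonempty)
  refine ⟨n % M, Nat.mod_lt _ hM, ?_⟩
  have h1 : lf M c n = lf M c (n % M) := by
    conv_lhs => rw [← Nat.mod_add_div n M]
    exact lf_add M c _ _
  rw [← h1]
  exact hn

/-- `N` beats the powers of its logarithm -/
lemma ev_pow (a : ℕ) (C : ℝ) (hC : 0 ≤ C) : ∀ᶠ N : ℕ in atTop, C * Real.log N ^ a ≤ N := by
  have h := isLittleO_log_rpow_rpow_atTop (a : ℝ) (zero_lt_one)
  have h' := (h.comp_tendsto tendsto_natCast_atTop_atTop).bound (c := 1 / (C + 1)) (by positivity)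
  filter_upwards [h', eventually_ge_atTop 3] with N hN hN3
  simp only [Function.comp, Real.rpow_natCast, Real.rpow_one] at hN
  have hN3r : (3 : ℝ) ≤ N := by exact_mod_cast hN3
  have hl : 0 ≤ Real.log (N : ℝ) := Real.log_nonneg (by linarith)
  rw [Real.norm_of_nonneg (by positivity), Real.norm_of_nonneg (by positivity)] at hN
  rw [div_mul_eq_mul_div, one_mul, le_div_iff₀ (by positivity)] at hN
  have : 0 ≤ Real.log (N : ℝ) ^ a := by positivity
  nlinarith

/-- the first moment -/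
theorem markovC (T a w M : ℕ) (hM1 : 1 ≤ M) (hM : ∀ p : ℕ, p.Prime → (p ∣ M ↔ p ≤ w)) : ∃ K : ℝ, 0 ≤ K ∧ ∀ᶠ N : ℕ in atTop, ∀ q : ℕ,
    (N : ℝ) ≤ q * Real.log N ^ a → q ≤ N → ∀ (m : ℕ) (c b : Fin m → ℕ), (∀ j, b j ≤ T * N) →
      ∑ s ∈ Fintype.piFinset (fun j => cls M (c j) (b j) q), ((sv (Icc 1 N) s).card : ℝ) ≤
        N * (Real.exp (-(Pw w * rest M c / Real.log N * (1 - K / Real.log N))) * ∏ j, ((cls M (c j) (b j) q).card : ℝ)) := by
  classical
  obtain ⟨K, hK, h1⟩ := pa_lo T a M hM1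
  refine ⟨K + 1, by linarith, ?_⟩
  filter_upwards [h1, ev_pow (a + 1) M (Nat.cast_nonneg M), ev_log (K + 2), eventually_ge_atTop 3] with N g1 g2 g3 g4 q hq hqN m c b hb
  rw [first]
  have e0 : (N : ℝ) * (Real.exp (-(Pw w * rest M c / Real.log N * (1 - (K + 1) / Real.log N))) * ∏ j, ((cls M (c j) (b j) q).card : ℝ)) =
      ∑ _n ∈ Icc 1 N, (Real.exp (-(Pw w * rest M c / Real.log N * (1 - (K + 1) / Real.log N))) * ∏ j, ((cls M (c j) (b j) q).card : ℝ)) := by
    rw [sum_const, nsmul_eq_mul, Nat.card_Icc, Nat.add_sub_cancel]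
  rw [e0]
  apply sum_le_sum
  intro n hn
  rw [mem_Icc] at hn
  have hN3 : (3 : ℝ) ≤ N := by exact_mod_cast g4
  have hM0 : (0 : ℝ) < M := by exact_mod_cast hM1
  have hP := one_le_Pw w
  obtain ⟨L, hL⟩ : ∃ L, L = Real.log (N : ℝ) := ⟨_, rfl⟩
  have g1' := fun (j : Fin m) (hj : (n + c j).Coprime M) => g1 (n + c j) hj (n + b j) q (by nlinarith [hb j]) hq hqN
  rw [← hL] at g2 g3 hq g1' ⊢
  have hL0 : 0 < L := by linarith
  have hq0 : (0 : ℝ) < q := by
    rcases Nat.eq_zero_or_pos q with h0 | h0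
    · rw [h0, Nat.cast_zero, zero_mul] at hq
      linarith
    · exact_mod_cast h0
  have hMq : (M : ℝ) * L ≤ q := by
    have a1 : (M : ℝ) * L * L ^ a ≤ q * L ^ a := by
      have : (M : ℝ) * L ^ (a + 1) = M * L * L ^ a := by rw [pow_succ]; ring
      rw [← this]
      exact g2.trans hq
    exact le_of_mul_le_mul_right a1 (by positivity)
  obtain ⟨t, ht⟩ : ∃ t, t = Pw w / L * (1 - (K + 1) / L) := ⟨_, rfl⟩
  have hKL : (K + 1) / L ≤ 1 := by rw [div_le_one hL0]; linarith
  have ht0 : 0 ≤ t := by rw [ht]; exact mul_nonneg (by positivity) (by linarith)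
  have key : ∀ j : Fin m, (((cls M (c j) (b j) q).card : ℝ) - ((cls M (c j) (b j) q).filter fun v => (n + v).Prime).card) ≤
      (if (n + c j).Coprime M then Real.exp (-t) else 1) * ((cls M (c j) (b j) q).card : ℝ) := by
    intro j
    have f0 : ((cls M (c j) (b j) q).filter fun v => (n + v).Prime) = hitc M (c j) (b j) q n := rfl
    rw [f0]
    split_ifs with hj
    · obtain ⟨U, hU⟩ : ∃ U : ℝ, U = (cls M (c j) (b j) q).card := ⟨_, rfl⟩
      obtain ⟨A, hA⟩ : ∃ A : ℝ, A = (hitc M (c j) (b j) q n).card := ⟨_, rfl⟩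
      have f1 := (abs_le.1 (cls_card M (c j) (b j) q hM1)).2
      have f2 := g1' j hj
      rw [← hitc_card] at f2
      rw [← hU] at f1 ⊢
      rw [← hA] at f2 ⊢
      have hU0 : 0 ≤ U := by rw [hU]; exact Nat.cast_nonneg _
      have f3 : t * U ≤ A := by
        have h2 := tot_P w M hM1 hM
        have hφ : (0 : ℝ) < Nat.totient M := by exact_mod_cast Nat.totient_pos.2 hM1
        have h3 : (q / Nat.totient M : ℝ) = q / M * Pw w := by
          rw [div_mul_eq_mul_div, div_eq_div_iff hφ.ne' hM0.ne', ← h2]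
          ring
        rw [h3] at f2
        have h4 : U ≤ q / M * (1 + 1 / L) := by
          have : 1 ≤ (q : ℝ) / M * (1 / L) := by
            rw [div_mul_div_comm, mul_one, le_div_iff₀ (by positivity)]
            linarith
          linarith
        have h5 : t * U ≤ t * (q / M * (1 + 1 / L)) := mul_le_mul_of_nonneg_left h4 ht0
        have h6 : t * (q / M * (1 + 1 / L)) ≤ q / M * Pw w / L - K * (q / M * Pw w / L ^ 2) := by
          have e1 : t * (q / M * (1 + 1 / L)) = (q / M * Pw w / L) * ((1 - (K + 1) / L) * (1 + 1 / L)) := by rw [ht]; ring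
          have e2 : q / M * Pw w / L - K * (q / M * Pw w / L ^ 2) = (q / M * Pw w / L) * (1 - K / L) := by
            field_simp
          rw [e1, e2]
          apply mul_le_mul_of_nonneg_left _ (by positivity)
          have e3 : (1 - (K + 1) / L) * (1 + 1 / L) = 1 - K / L - (K + 1) / L * (1 / L) := by ring
          rw [e3]
          have : 0 ≤ (K + 1) / L * (1 / L) := by positivity
          linarith
        linarith
      have f4 := Real.add_one_le_exp (-t)
      have f5 := mul_le_mul_of_nonneg_right f4 hU0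
      nlinarith
    · have : (0 : ℝ) ≤ (hitc M (c j) (b j) q n).card := Nat.cast_nonneg _
      linarith
  calc ∏ j, (((cls M (c j) (b j) q).card : ℝ) - ((cls M (c j) (b j) q).filter fun v => (n + v).Prime).card) ≤
      ∏ j, ((if (n + c j).Coprime M then Real.exp (-t) else 1) * ((cls M (c j) (b j) q).card : ℝ)) := by
        apply Finset.prod_le_prod
        · intro j _
          have : (((cls M (c j) (b j) q).filter fun v => (n + v).Prime).card : ℝ) ≤ (cls M (c j) (b j) q).card := by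
            exact_mod_cast card_filter_le _ _
          linarith
        · exact fun j _ => key j
    _ = Real.exp (-(lf M c n * t)) * ∏ j, ((cls M (c j) (b j) q).card : ℝ) := by
        rw [prod_mul_distrib]
        congr 1
        rw [prod_ite, prod_const, prod_const_one, mul_one, ← Real.exp_nat_mul]
        congr 1
        unfold lf
        ring
    _ ≤ _ := by
        apply mul_le_mul_of_nonneg_right _ (prod_nonneg fun _ _ => Nat.cast_nonneg _)
        apply Real.exp_le_exp.2
        apply neg_le_neg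
        have e1 : Pw w * rest M c / L * (1 - (K + 1) / L) = rest M c * t := by rw [ht]; ring
        rw [e1]
        apply mul_le_mul_of_nonneg_right _ ht0
        exact_mod_cast rest_le M c n

/-- above the threshold -/
theorem one_r (T a w M : ℕ) (hM1 : 1 ≤ M) (hM : ∀ p : ℕ, p.Prime → (p ∣ M ↔ p ≤ w)) (ε : ℝ) (hε : 0 < ε) : ∀ᶠ N : ℕ in atTop, ∀ q : ℕ,
    (N : ℝ) ≤ q * Real.log N ^ a → q ≤ N → ∀ (m : ℕ) (c b : Fin m → ℕ), (∀ j, b j ≤ T * N) →
    (1 + ε) * Real.log N ^ 2 ≤ Pw w * rest M c →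
      (((Fintype.piFinset fun j => cls M (c j) (b j) q).filter fun s => (sv (Icc 1 N) s).Nonempty).card : ℝ) ≤
        (N : ℝ) ^ (-(ε / 2)) * ∏ j, ((cls M (c j) (b j) q).card : ℝ) := by
  classical
  obtain ⟨K, hK, h1⟩ := markovC T a w M hM1 hM
  filter_upwards [h1, ev_log (2 * (1 + ε) * K / ε + 1), eventually_ge_atTop 3] with N g1 g2 g3 q hq hqN m c b hb hm
  obtain ⟨L, hL⟩ : ∃ L, L = Real.log (N : ℝ) := ⟨_, rfl⟩
  have hN0 : (0 : ℝ) < N := by exact_mod_cast (by omega : 0 < N)
  have k1 := g1 q hq hqN m c b hb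
  rw [← hL] at g2 hm k1
  have hKL : 2 * (1 + ε) * K ≤ ε * L := by
    have : 2 * (1 + ε) * K / ε ≤ L := by linarith
    rw [div_le_iff₀ hε] at this
    linarith
  have hL1 : 1 ≤ L := by
    have : 0 ≤ 2 * (1 + ε) * K / ε := by positivity
    linarith
  have hL0 : 0 < L := by linarith
  have k2 : (((Fintype.piFinset fun j => cls M (c j) (b j) q).filter fun s => (sv (Icc 1 N) s).Nonempty).card : ℝ) ≤
      ∑ s ∈ Fintype.piFinset (fun j => cls M (c j) (b j) q), ((sv (Icc 1 N) s).card : ℝ) := by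
    rw [card_filter]
    push_cast
    apply sum_le_sum
    intro s _
    split_ifs with h
    · exact_mod_cast h.card_pos
    · exact Nat.cast_nonneg _
  refine k2.trans (k1.trans ?_)
  rw [← mul_assoc]
  apply mul_le_mul_of_nonneg_right _ (prod_nonneg fun _ _ => Nat.cast_nonneg _)
  rw [Real.rpow_def_of_pos hN0, ← hL]
  have k3 : (N : ℝ) = Real.exp L := by rw [hL, Real.exp_log hN0]
  have k4 : (N : ℝ) * Real.exp (-(Pw w * rest M c / L * (1 - K / L))) = Real.exp (L - (Pw w * rest M c / L * (1 - K / L))) := by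
    rw [k3, ← Real.exp_add, ← sub_eq_add_neg]
  rw [k4]
  apply Real.exp_le_exp.2
  have k5 : Pw w * rest M c / L * (1 - K / L) = (Pw w * rest M c / L ^ 2) * (L - K) := by field_simp
  rw [k5]
  have k6 : 1 + ε ≤ Pw w * rest M c / L ^ 2 := by rwa [le_div_iff₀ (by positivity)]
  have hKL' : K ≤ L := by nlinarith
  have k7 : (1 + ε) * (L - K) ≤ (Pw w * rest M c / L ^ 2) * (L - K) := mul_le_mul_of_nonneg_right k6 (by linarith)
  nlinarith

end Pool.Agent.Run7.h931.RL
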