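import Pool.Agent.Run7.h931.RL.First

/-!
# Random shifts in residue classes, part 6: below the threshold
-/

set_option autoImplicit false

namespace Pool.Agent.Run7.h931.RL

open Finset Filter
open Pool.Agent.Run7.h931.RS (Pw Fw one_le_Pw one_le_Fw wt wt_nonneg ev_log sv sharp)

/-- the weighted number is at most the number of the survivors times the size of the weights -/
lemma Zr_le {m : ℕ} (w M q : ℕ) (c b : Fin m → ℕ) (n : ℕ → ℕ) (R : ℕ) (L δ K : ℝ) (S : Finset (Fin m))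
    (hc : ∀ k < R, ∀ j ∈ S, Cr w M L δ K q (c j) (b j) (n k))
    (he : ∀ k < R, ∀ j ∉ S, hitc M (c j) (b j) q (n k) = ∅) (hU : ∀ j, 0 < (cls M (c j) (b j) q).card)
    (hinj : ∀ k k', n k = n k' → k = k') (N : ℕ)
    (hnk : ∀ k < R, 1 ≤ n k ∧ n k ≤ N) (s : Fin m → ℕ) (hs : s ∈ Fintype.piFinset fun j => cls M (c j) (b j) q) :
    Zr M q c b n R s ≤ ((sv (Icc 1 N) s).card : ℝ) * Real.exp ((1 + 3 * δ) * (Pw w / L) * S.card) := by
  classical
  rw [Fintype.mem_piFinset] at hs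
  obtain ⟨β, hβ⟩ : ∃ β, β = (1 + 3 * δ) * (Pw w / L) := ⟨_, rfl⟩
  rw [← hβ]
  have h1 : ∀ k ∈ range R, ∏ j, wt (cls M (c j) (b j) q) (hitc M (c j) (b j) q (n k)) (s j) ≤
      if n k ∈ sv (Icc 1 N) s then Real.exp (β * S.card) else 0 := by
    intro k hk
    rw [mem_range] at hk
    by_cases hsv : n k ∈ sv (Icc 1 N) s
    · rw [if_pos hsv]
      calc ∏ j, wt (cls M (c j) (b j) q) (hitc M (c j) (b j) q (n k)) (s j) ≤
          ∏ j : Fin m, (if j ∈ S then Real.exp β else 1) := by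
            apply Finset.prod_le_prod
            · exact fun j _ => wt_nonneg _ _ (hitc_sub M (c j) (b j) q (n k)) _
            · intro j _
              split_ifs with hj
              · rw [hβ]
                exact (hc k hk j hj).wt_le (s j) (hs j)
              · rw [he k hk j hj, wt_empty _ (hU j)]
        _ = _ := by
            rw [prod_ite, prod_const, prod_const_one, mul_one, ← Real.exp_nat_mul, filter_mem_eq_inter, univ_inter]
            congr 1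
            ring
    · rw [if_neg hsv]
      unfold sv at hsv
      rw [mem_filter, not_and_or] at hsv
      rcases hsv with hsv | hsv
      · exact absurd (mem_Icc.2 (hnk k hk)) hsv
      · push Not at hsv
        obtain ⟨j, hj⟩ := hsv
        apply le_of_eq
        apply prod_eq_zero (mem_univ j)
        unfold wt
        rw [if_pos]
        unfold hitc
        rw [mem_filter]
        exact ⟨hs j, hj⟩
  refine (sum_le_sum h1).trans ?_
  rw [← sum_filter, sum_const, nsmul_eq_mul]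
  apply mul_le_mul_of_nonneg_right _ (Real.exp_pos _).le
  have h2 : ((range R).filter fun k => n k ∈ sv (Icc 1 N) s).card ≤ (sv (Icc 1 N) s).card := by
    apply card_le_card_of_injOn n
    · intro k hk
      have hk' : k ∈ (range R).filter fun k => n k ∈ sv (Icc 1 N) s := by exact_mod_cast hk
      exact_mod_cast (mem_filter.1 hk').2
    · intro k _ k' _ hkk
      exact hinj k k' hkk
  exact_mod_cast h2

/-- below the threshold -/
theorem two_r (ε : ℝ) (hε : 0 < ε) : ∃ w₀ : ℕ, ∀ T a w : ℕ, w₀ ≤ w → ∀ M : ℕ, 1 ≤ M → (∀ p : ℕ, p.Prime → (p ∣ M ↔ p ≤ w)) →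
    ∀ᶠ N : ℕ in atTop, ∀ q : ℕ, (N : ℝ) ≤ q * Real.log N ^ a → q ≤ N →
    ∀ (m : ℕ) (c b : Fin m → ℕ), (∀ j, b j ≤ T * N) → Pw w * rest M c ≤ (1 - ε) * Real.log N ^ 2 →
      (((Fintype.piFinset fun j => cls M (c j) (b j) q).filter fun s =>
        ¬ ((N : ℝ) ^ (1 - Pw w * rest M c / Real.log N ^ 2 - ε) ≤ (sv (Icc 1 N) s).card ∧
          ((sv (Icc 1 N) s).card : ℝ) ≤ (N : ℝ) ^ (1 - Pw w * rest M c / Real.log N ^ 2 + ε))).card : ℝ) ≤
        ε * ∏ j, ((cls M (c j) (b j) q).card : ℝ) := by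
  classical
  rcases lt_or_ge 1 ε with hε1 | hε1
  · refine ⟨0, fun T a w _ M hM1 hM => ?_⟩
    filter_upwards [ev_log 1] with N g1 q hq hqN m c b hb hm
    exfalso
    have h1 : (0 : ℝ) ≤ Pw w * rest M c := mul_nonneg (by linarith [one_le_Pw w]) (Nat.cast_nonneg _)
    have h2 : 0 < Real.log (N : ℝ) ^ 2 := by positivity
    nlinarith
  obtain ⟨η, hη⟩ : ∃ η, η = ε / 200 := ⟨_, rfl⟩
  have hη0 : 0 < η := by rw [hη]; positivity
  have hη1 : η ≤ 1 / 200 := by rw [hη]; linarith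
  obtain ⟨w₀, _, hw₀⟩ := sharp η hη0
  refine ⟨w₀, fun T a w hw M hM1 hM => ?_⟩
  have hsh := hw₀ w hw
  have hP := one_le_Pw w
  obtain ⟨δ, hδ⟩ : ∃ δ, δ = η / (8 * Pw w) := ⟨_, rfl⟩
  have hδ0 : 0 < δ := by rw [hδ]; positivity
  have hδη : δ ≤ η / 8 := by
    rw [hδ]
    apply div_le_div_of_nonneg_left hη0.le (by norm_num) (by linarith)
  have hδP : 4 * δ * Pw w = η / 2 := by rw [hδ]; field_simp; norm_num
  obtain ⟨K, hK, h1⟩ := two_Zr T a w M hM1 hM ε δ η hε1 hδ0 (by linarith) (by linarith) hη0 (by linarith) hsh (by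
    rw [hδP]
    have := Real.abs_exp_sub_one_sub_id_le (x := η / 2) (by rw [abs_of_pos (by positivity)]; linarith)
    have := (abs_le.1 this).2
    nlinarith)
  obtain ⟨K', hK', h2⟩ := markovC T a w M hM1 hM
  have hMr : (0 : ℝ) < M := by exact_mod_cast hM1
  filter_upwards [h1, h2, eventually_ge_atTop 3, ev_log ((Real.log (16 * M)) / (ε / 2)),
    ev_log ((K' + Real.log (4 / ε)) / ε), ev_log (K' + 1)] with
    N g1 g2 g3 g4 g6 g7 q hq hqN m c b hb hm
  obtain ⟨ρ, hρ, hρr⟩ := rest_at M hM1 c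
  obtain ⟨S, hS⟩ : ∃ S : Finset (Fin m), S = univ.filter fun j => (ρ + c j).Coprime M := ⟨_, rfl⟩
  have hSc : S.card = rest M c := by rw [← hρr, hS]; rfl
  obtain ⟨n, R, a1, a2, a3, a4, a4', a4'', a5⟩ := g1 q hq hqN m c b hb ρ hρ S (fun j => by rw [hS, mem_filter]; simp) (by rw [hSc]; exact hm)
  have b1 := g2 q hq hqN m c b hb
  obtain ⟨L, hL⟩ : ∃ L, L = Real.log (N : ℝ) := ⟨_, rfl⟩
  obtain ⟨Λ, hΛ⟩ : ∃ Λ : ℝ, Λ = Pw w * rest M c := ⟨_, rfl⟩
  rw [← hL] at g4 g6 g7 hm a4' b1 ⊢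
  rw [← hΛ] at hm b1 ⊢
  have hN0 : (0 : ℝ) < N := by exact_mod_cast (by omega : 0 < N)
  have hL0 : 0 < L := by linarith
  have hNL : (N : ℝ) = Real.exp L := by rw [hL, Real.exp_log hN0]
  have hΛ0 : (0 : ℝ) ≤ Λ := by rw [hΛ]; positivity
  have hm2 : Λ / L ^ 2 ≤ 1 := by
    rw [div_le_one (by positivity)]
    have : 0 ≤ ε * L ^ 2 := by positivity
    linarith
  obtain ⟨Ω, hΩ⟩ : ∃ Ω, Ω = Fintype.piFinset fun j => cls M (c j) (b j) q := ⟨_, rfl⟩
  obtain ⟨Q, hQ⟩ : ∃ Q : ℝ, Q = ∏ j, ((cls M (c j) (b j) q).card : ℝ) := ⟨_, rfl⟩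
  have hQ0 : 0 ≤ Q := by rw [hQ]; exact prod_nonneg fun _ _ => Nat.cast_nonneg _
  rw [← hΩ, ← hQ] at a5 b1 ⊢
  -- the two bad sets
  obtain ⟨B1, hB1⟩ : ∃ B1, B1 = Ω.filter fun s => 1 / 2 * R < |Zr M q c b n R s - R| := ⟨_, rfl⟩
  obtain ⟨B3, hB3⟩ : ∃ B3, B3 = Ω.filter fun s => (N : ℝ) ^ (1 - Λ / L ^ 2 + ε) < ((sv (Icc 1 N) s).card : ℝ) := ⟨_, rfl⟩
  rw [← hB1] at a5
  have c1 : (B1.card : ℝ) ≤ ε / 2 * Q := by
    rw [hη] at a5
    nlinarith [mul_nonneg hε.le hQ0]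
  have c3 : (B3.card : ℝ) ≤ ε / 4 * Q := by
    have d1 : (B3.card : ℝ) * (N : ℝ) ^ (1 - Λ / L ^ 2 + ε) ≤ ∑ s ∈ Ω, ((sv (Icc 1 N) s).card : ℝ) := by
      rw [← nsmul_eq_mul, ← sum_const, hB3]
      refine le_trans (sum_le_sum (fun s hs => ?_)) (sum_le_sum_of_subset_of_nonneg (filter_subset _ _) fun s _ _ => Nat.cast_nonneg _)
      exact (mem_filter.1 hs).2.le
    have d2 := d1.trans b1
    rw [Real.rpow_def_of_pos hN0, ← hL] at d2
    have d3 : (N : ℝ) * (Real.exp (-(Λ / L * (1 - K' / L))) * Q) =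
        (Real.exp (K' * (Λ / L ^ 2) - ε * L) * Q) * Real.exp (L * (1 - Λ / L ^ 2 + ε)) := by
      have e1 : K' * (Λ / L ^ 2) - ε * L + L * (1 - Λ / L ^ 2 + ε) = L + -(Λ / L * (1 - K' / L)) := by field_simp; ring
      calc (N : ℝ) * (Real.exp (-(Λ / L * (1 - K' / L))) * Q) =
          Q * Real.exp (L + -(Λ / L * (1 - K' / L))) := by rw [Real.exp_add, ← hNL]; ring
        _ = Q * Real.exp (K' * (Λ / L ^ 2) - ε * L + L * (1 - Λ / L ^ 2 + ε)) := by rw [e1]
        _ = _ := by rw [Real.exp_add]; ring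
    rw [d3] at d2
    have d4 := le_of_mul_le_mul_right d2 (Real.exp_pos _)
    refine d4.trans (mul_le_mul_of_nonneg_right ?_ hQ0)
    rw [div_le_iff₀ hε] at g6
    have d5 : K' * (Λ / L ^ 2) ≤ K' := mul_le_of_le_one_right hK' hm2
    have d6 : Real.exp (K' * (Λ / L ^ 2) - ε * L) ≤ Real.exp (-Real.log (4 / ε)) := Real.exp_le_exp.2 (by linarith)
    rw [Real.exp_neg, Real.exp_log (by positivity), inv_div] at d6
    exact d6
  -- every other vector of shifts is good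
  have c4 : (Ω.filter fun s => ¬ ((N : ℝ) ^ (1 - Λ / L ^ 2 - ε) ≤ (sv (Icc 1 N) s).card ∧
      ((sv (Icc 1 N) s).card : ℝ) ≤ (N : ℝ) ^ (1 - Λ / L ^ 2 + ε))) ⊆ B1 ∪ B3 := by
    intro s hs
    rw [mem_filter] at hs
    obtain ⟨hsΩ, hs⟩ := hs
    by_contra hnot
    rw [mem_union, not_or] at hnot
    obtain ⟨n1, n3⟩ := hnot
    rw [hB1, mem_filter, not_and, not_lt] at n1
    rw [hB3, mem_filter, not_and, not_lt] at n3
    apply hs
    refine ⟨?_, n3 hsΩ⟩
    have n1' := (abs_le.1 (n1 hsΩ)).1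
    have f1 := Zr_le w M q c b n R L δ K S a4' a4'' a4 a3 N a2 s (by rw [← hΩ]; exact hsΩ)
    have f2 : (1 + 3 * δ) * (Pw w / L) * S.card ≤ Λ / L + ε / 2 * L := by
      have e1 : (1 + 3 * δ) * (Pw w / L) * S.card = Λ / L + 3 * δ * (Λ / L) := by rw [hSc, hΛ]; ring
      rw [e1]
      have e6 : Λ / L ≤ L := by
        have : Λ / L = (Λ / L ^ 2) * L := by field_simp
        rw [this]
        exact mul_le_of_le_one_left hL0.le hm2
      have e7 : 3 * δ * (Λ / L) ≤ ε / 2 * L := mul_le_mul (by linarith) e6 (by positivity) (by positivity)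
      linarith
    have f3 := Real.exp_le_exp.2 f2
    have f4 : (0 : ℝ) ≤ (sv (Icc 1 N) s).card := Nat.cast_nonneg _
    have f5 : (N : ℝ) / (16 * M) ≤ ((sv (Icc 1 N) s).card : ℝ) * Real.exp (Λ / L + ε / 2 * L) := by
      have e1 := f1.trans (mul_le_mul_of_nonneg_left f3 f4)
      have e2 : (N : ℝ) / (16 * M) = (N / (8 * M)) / 2 := by field_simp; norm_num
      linarith
    rw [Real.rpow_def_of_pos hN0, ← hL]
    rw [div_le_iff₀ (by positivity)] at g4
    have f6 : L * (1 - Λ / L ^ 2 - ε) ≤ L - Real.log (16 * M) - (Λ / L + ε / 2 * L) := by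
      have : L * (1 - Λ / L ^ 2 - ε) = L - Λ / L - ε * L := by field_simp
      rw [this]
      linarith
    refine (Real.exp_le_exp.2 f6).trans ?_
    rw [Real.exp_sub, Real.exp_sub, Real.exp_log (by positivity), ← hNL, div_le_iff₀ (Real.exp_pos _)]
    exact f5
  have c5 : (((Ω.filter fun s => ¬ ((N : ℝ) ^ (1 - Λ / L ^ 2 - ε) ≤ (sv (Icc 1 N) s).card ∧
      ((sv (Icc 1 N) s).card : ℝ) ≤ (N : ℝ) ^ (1 - Λ / L ^ 2 + ε)))).card : ℝ) ≤ B1.card + B3.card := by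
    exact_mod_cast (card_le_card c4).trans (card_union_le B1 B3)
  refine c5.trans ?_
  have : 0 ≤ ε / 4 * Q := by positivity
  linarith

end Pool.Agent.Run7.h931.RL
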