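import Pool.Agent.Run7.h931.RL.Below
import Pool.Agent.Run7.h931.RS.Final

/-!
# Random shifts in residue classes, part 7: the longest run of composite values
-/

set_option autoImplicit false

namespace Pool.Agent.Run7.h931.RL

open Finset Filter
open Pool.Agent.Run7.h931.RS (Pw one_le_Pw ev_log sv Free run cop cop_blk cop_mono)

/-- the number of the `j < k` with `n + c j` coprime to `M` -/
def lft (M : ℕ) (c : ℕ → ℕ) (k n : ℕ) : ℕ := ((range k).filter fun j => (n + c j).Coprime M).card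

/-- the least of these numbers -/
noncomputable def sur (M : ℕ) (c : ℕ → ℕ) (k : ℕ) : ℕ := sInf (Set.range (lft M c k))

lemma lft_eq (M : ℕ) (c : ℕ → ℕ) (k n : ℕ) : lf M (fun j : Fin k => c j) n = lft M c k n := by
  unfold lf lft
  rw [card_filter, card_filter, Finset.sum_range]

lemma rest_eq (M : ℕ) (c : ℕ → ℕ) (k : ℕ) : rest M (fun j : Fin k => c j) = sur M c k := by
  unfold rest sur
  congr 1
  ext x
  constructor
  · rintro ⟨n, rfl⟩
    exact ⟨n, (lft_eq M c k n).symm⟩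
  · rintro ⟨n, rfl⟩
    exact ⟨n, lft_eq M c k n⟩

lemma sur_le (M : ℕ) (c : ℕ → ℕ) (k n : ℕ) : sur M c k ≤ lft M c k n := Nat.sInf_le ⟨n, rfl⟩

lemma sur_at (M : ℕ) (c : ℕ → ℕ) (k : ℕ) : ∃ n, lft M c k n = sur M c k :=
  Nat.sInf_mem (⟨lft M c k 0, ⟨0, rfl⟩⟩ : (Set.range (lft M c k)).Nonempty)

lemma sur_mono (M : ℕ) (c : ℕ → ℕ) (k k' : ℕ) (h : k ≤ k') : sur M c k ≤ sur M c k' := by
  obtain ⟨n, hn⟩ := sur_at M c k'
  rw [← hn]
  refine (sur_le M c k n).trans ?_
  unfold lft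
  apply card_le_card
  apply filter_subset_filter
  exact range_subset_range.2 h

lemma sur_succ (M : ℕ) (c : ℕ → ℕ) (k : ℕ) : sur M c (k + 1) ≤ sur M c k + 1 := by
  obtain ⟨n, hn⟩ := sur_at M c k
  rw [← hn]
  refine (sur_le M c (k + 1) n).trans ?_
  unfold lft
  rw [range_add_one, filter_insert]
  split_ifs
  · exact card_insert_le _ _
  · exact Nat.le_succ _

lemma sur_zero (M : ℕ) (c : ℕ → ℕ) : sur M c 0 = 0 := by
  have := sur_le M c 0 0
  unfold lft at this
  rw [range_zero, filter_empty, card_empty] at this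
  omega

/-- intervals: what remains of `k` consecutive integers -/
lemma sur_id (w M : ℕ) (hM1 : 1 ≤ M) (hM : ∀ p : ℕ, p.Prime → (p ∣ M ↔ p ≤ w)) (c : ℕ → ℕ) (k : ℕ) (hc : ∀ j < k, c j = j) :
    |Pw w * sur M c k - k| ≤ M := by
  have h0 : ∀ n, lft M c k n = (cop M (n + M - 1) k).card := by
    intro n
    unfold lft cop
    apply card_bij (fun j _ => n + M + j)
    · intro j hj
      rw [mem_filter, mem_range] at hj
      rw [mem_filter, mem_Ioc]
      refine ⟨by omega, ?_⟩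
      rw [hc j hj.1] at hj
      rw [Nat.coprime_comm, show n + M + j = n + j + M * 1 by ring]
      exact (Nat.coprime_add_mul_left_left _ _ _).2 hj.2
    · intro j _ j' _ h
      simpa using h
    · intro t ht
      rw [mem_filter, mem_Ioc] at ht
      refine ⟨t - (n + M), ?_, by omega⟩
      rw [mem_filter, mem_range]
      refine ⟨by omega, ?_⟩
      rw [hc _ (by omega)]
      have h1 : t = n + (t - (n + M)) + M * 1 := by omega
      have h2 := ht.2
      rw [Nat.coprime_comm, h1] at h2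
      exact (Nat.coprime_add_mul_left_left _ _ _).1 h2
  obtain ⟨n, hn⟩ := sur_at M c k
  have hP := tot_P w M hM1 hM
  have hP1 := one_le_Pw w
  rw [h0] at hn
  have h3 : (cop M (n + M - 1) k).card ≤ (k / M + 1) * Nat.totient M := by
    rw [← cop_blk M (n + M - 1)]
    exact card_le_card (cop_mono _ _ _ _ (by rw [mul_comm]; exact (Nat.lt_mul_div_succ k hM1).le))
  have h4 : (k / M) * Nat.totient M ≤ (cop M (n + M - 1) k).card := by
    rw [← cop_blk M (n + M - 1)]
    exact card_le_card (cop_mono _ _ _ _ (Nat.div_mul_le_self k M))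
  rw [hn] at h3 h4
  have h3' : (sur M c k : ℝ) ≤ ((k / M : ℕ) + 1) * Nat.totient M := by exact_mod_cast h3
  have h4' : ((k / M : ℕ) : ℝ) * Nat.totient M ≤ sur M c k := by exact_mod_cast h4
  have h5 : M * (k / M) ≤ k := Nat.mul_div_le k M
  have h6 : k < M * (k / M + 1) := Nat.lt_mul_div_succ k hM1
  have h5' : (M : ℝ) * ((k / M : ℕ) : ℝ) ≤ k := by exact_mod_cast h5
  have h6' : (k : ℝ) < M * (((k / M : ℕ) : ℝ) + 1) := by exact_mod_cast h6
  have h7 := mul_le_mul_of_nonneg_left h3' (by linarith : (0 : ℝ) ≤ Pw w)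
  have h8 := mul_le_mul_of_nonneg_left h4' (by linarith : (0 : ℝ) ≤ Pw w)
  have e7 : Pw w * (((k / M : ℕ) + 1) * Nat.totient M) = M * ((k / M : ℕ) : ℝ) + M := by
    calc Pw w * ((((k / M : ℕ) : ℝ) + 1) * Nat.totient M) = (Nat.totient M * Pw w) * ((k / M : ℕ) : ℝ) + Nat.totient M * Pw w := by ring
      _ = _ := by rw [hP]
  have e8 : Pw w * (((k / M : ℕ) : ℝ) * Nat.totient M) = M * ((k / M : ℕ) : ℝ) := by
    calc Pw w * (((k / M : ℕ) : ℝ) * Nat.totient M) = (Nat.totient M * Pw w) * ((k / M : ℕ) : ℝ) := by ring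
      _ = _ := by rw [hP]
  rw [e7] at h7
  rw [e8] at h8
  rw [abs_le]
  constructor <;> linarith

/-- a set of vectors which is determined by the first `k` coordinates -/
lemma projC (k r : ℕ) (Ω : ℕ → Finset ℕ) (S : Finset (Fin (k + r) → ℕ)) (P : Finset (Fin k → ℕ))
    (hS : ∀ s ∈ S, (∀ j : Fin (k + r), s j ∈ Ω j) ∧ (fun j : Fin k => s (Fin.castAdd r j)) ∈ P) :
    (S.card : ℝ) ≤ P.card * ∏ j : Fin r, ((Ω (Fin.natAdd k j)).card : ℝ) := by
  classical
  have h1 : S.card ≤ (P ×ˢ Fintype.piFinset (fun j : Fin r => Ω (Fin.natAdd k j))).card := by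
    apply card_le_card_of_injOn (fun s => (fun j : Fin k => s (Fin.castAdd r j), fun j : Fin r => s (Fin.natAdd k j)))
    · intro s hs
      have hs' : s ∈ S := by exact_mod_cast hs
      obtain ⟨h1, h2⟩ := hS s hs'
      have : ((fun j : Fin k => s (Fin.castAdd r j), fun j : Fin r => s (Fin.natAdd k j)) : (Fin k → ℕ) × (Fin r → ℕ)) ∈
          P ×ˢ Fintype.piFinset (fun j : Fin r => Ω (Fin.natAdd k j)) := by
        rw [mem_product, Fintype.mem_piFinset]
        exact ⟨h2, fun j => h1 _⟩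
      exact_mod_cast this
    · intro s _ s' _ hss
      simp only [Prod.mk.injEq] at hss
      funext j
      refine Fin.addCases (fun i => ?_) (fun i => ?_) j
      · exact congrFun hss.1 i
      · exact congrFun hss.2 i
  have h2 : (P ×ˢ Fintype.piFinset (fun j : Fin r => Ω (Fin.natAdd k j))).card = P.card * ∏ j : Fin r, (Ω (Fin.natAdd k j)).card := by
    rw [card_product, Fintype.card_piFinset]
  rw [h2] at h1
  exact_mod_cast h1

lemma prod_split (k r : ℕ) (Ω : ℕ → Finset ℕ) : ∏ j : Fin (k + r), ((Ω j).card : ℝ) =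
    (∏ j : Fin k, ((Ω j).card : ℝ)) * ∏ j : Fin r, ((Ω (Fin.natAdd k j)).card : ℝ) := by
  rw [Fin.prod_univ_add]
  rfl

/-- the law of the longest run, for every sequence of residues -/
theorem law_r (ε : ℝ) (hε : 0 < ε) : ∃ w₀ : ℕ, ∀ T a w : ℕ, w₀ ≤ w → ∀ M : ℕ, 1 ≤ M → (∀ p : ℕ, p.Prime → (p ∣ M ↔ p ≤ w)) →
    ∀ᶠ N : ℕ in atTop, ∀ q : ℕ, (N : ℝ) ≤ q * Real.log N ^ a → q ≤ N →
    ∀ (m : ℕ) (c b : ℕ → ℕ), (∀ j, b j ≤ T * N) → (1 + ε) * Real.log N ^ 2 ≤ Pw w * sur M c m →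
      (((Fintype.piFinset fun j : Fin m => cls M (c j) (b j) q).filter fun s =>
        ε * Real.log N ^ 2 < |Pw w * sur M c (run N s) - Real.log N ^ 2|).card : ℝ) ≤
        ε * ∏ j : Fin m, ((cls M (c j) (b j) q).card : ℝ) := by
  classical
  obtain ⟨w₀, hw₀⟩ := two_r (ε / 2) (by positivity)
  refine ⟨w₀, fun T a w hw M hM1 hM => ?_⟩
  have hP := one_le_Pw w
  filter_upwards [one_r T a w M hM1 hM ε hε, hw₀ T a w hw M hM1 hM, ev_log (Real.log (2 / ε) / (ε / 2)), ev_log 1,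
    ev_log (2 * Pw w / ε), eventually_ge_atTop 3] with N g1 g2 g3 g4 g5 g6 q hq hqN m c b hb hm
  obtain ⟨L, hL⟩ : ∃ L, L = Real.log (N : ℝ) := ⟨_, rfl⟩
  have hN0 : (0 : ℝ) < N := by exact_mod_cast (by omega : 0 < N)
  have hN1 : (1 : ℝ) ≤ N := by exact_mod_cast (by omega : 1 ≤ N)
  have k1 := g1 q hq hqN
  have k2 := g2 q hq hqN
  rw [← hL] at g3 g4 g5 hm k1 k2 ⊢
  have hL0 : 0 < L := by linarith
  have hLL : 2 * Pw w ≤ ε * L ^ 2 := by
    rw [div_le_iff₀ hε] at g5
    nlinarith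
  obtain ⟨W, hW⟩ : ∃ W : ℕ → Finset ℕ, W = fun j => cls M (c j) (b j) q := ⟨_, rfl⟩
  have hWj : ∀ j, cls M (c j) (b j) q = W j := fun j => by rw [hW]
  obtain ⟨Ω, hΩ⟩ : ∃ Ω, Ω = Fintype.piFinset fun j : Fin m => cls M (c j) (b j) q := ⟨_, rfl⟩
  obtain ⟨Q, hQ⟩ : ∃ Q : ℝ, Q = ∏ j : Fin m, ((cls M (c j) (b j) q).card : ℝ) := ⟨_, rfl⟩
  have hQ0 : 0 ≤ Q := by rw [hQ]; exact prod_nonneg fun _ _ => Nat.cast_nonneg _
  rw [← hΩ, ← hQ]
  have hrunm : ∀ s : Fin m → ℕ, run N s ≤ m := fun s => Nat.findGreatest_le m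
  obtain ⟨B1, hB1⟩ : ∃ B1, B1 = Ω.filter fun s => (1 + ε) * L ^ 2 < Pw w * sur M c (run N s) := ⟨_, rfl⟩
  obtain ⟨B2, hB2⟩ : ∃ B2, B2 = Ω.filter fun s => Pw w * sur M c (run N s) < (1 - ε) * L ^ 2 := ⟨_, rfl⟩
  have c1 : (B1.card : ℝ) ≤ ε / 2 * Q := by
    have hex : ∃ k, (1 + ε) * L ^ 2 ≤ Pw w * sur M c k := ⟨m, hm⟩
    obtain ⟨k, hk⟩ : ∃ k, k = Nat.find hex := ⟨_, rfl⟩
    have hk1 : (1 + ε) * L ^ 2 ≤ Pw w * sur M c k := by rw [hk]; exact Nat.find_spec hex
    have hk2 : ∀ k' < k, Pw w * sur M c k' < (1 + ε) * L ^ 2 := fun k' h => not_le.1 (Nat.find_min hex (by rw [← hk]; exact h))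
    have hkm : k ≤ m := by rw [hk]; exact Nat.find_min' hex hm
    obtain ⟨r, rfl⟩ := Nat.exists_eq_add_of_le hkm
    have d1 := k1 k (fun j => c j) (fun j => b j) (fun j => hb _) (by rw [rest_eq]; exact hk1)
    have d2 := projC k r W B1 ((Fintype.piFinset fun j : Fin k => cls M (c j) (b j) q).filter
      fun s => (sv (Icc 1 N) s).Nonempty) (by
        intro s hs
        rw [hB1, mem_filter, hΩ, Fintype.mem_piFinset] at hs
        refine ⟨fun j => by rw [← hWj]; exact hs.1 j, ?_⟩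
        rw [mem_filter, Fintype.mem_piFinset]
        refine ⟨fun j => hs.1 (Fin.castAdd r j), ?_⟩
        have e1 : k ≤ run N s := by
          by_contra hlt
          have := hk2 _ (not_le.1 hlt)
          linarith [hs.2]
        have e2 : run N s ≠ 0 := by
          intro h0
          rw [h0, sur_zero, Nat.cast_zero, mul_zero] at hs
          have : 0 < (1 + ε) * L ^ 2 := by positivity
          linarith [hs.2]
        have e3 : Free N (run N s) s := Nat.findGreatest_of_ne_zero rfl e2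
        obtain ⟨n, h1, h2, h3⟩ := e3.mono e1
        refine ⟨n, ?_⟩
        unfold sv
        rw [mem_filter, mem_Icc]
        exact ⟨⟨h1, h2⟩, fun j => h3 _ (by simp)⟩)
    refine d2.trans ((mul_le_mul_of_nonneg_right d1 (prod_nonneg fun _ _ => Nat.cast_nonneg _)).trans ?_)
    have e0 : ∏ j : Fin k, ((cls M (c j) (b j) q).card : ℝ) = ∏ j : Fin k, ((W j).card : ℝ) := by rw [hW]
    have e0' : Q = ∏ j : Fin (k + r), ((W j).card : ℝ) := by rw [hQ, hW]
    rw [e0, mul_assoc, ← prod_split, ← e0']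
    apply mul_le_mul_of_nonneg_right _ hQ0
    rw [Real.rpow_def_of_pos hN0, ← hL]
    rw [div_le_iff₀ (by positivity)] at g3
    have e1 : Real.exp (L * (-(ε / 2))) ≤ Real.exp (-Real.log (2 / ε)) := Real.exp_le_exp.2 (by linarith)
    rwa [Real.exp_neg, Real.exp_log (by positivity), inv_div] at e1
  have c2 : (B2.card : ℝ) ≤ ε / 2 * Q := by
    rcases lt_or_ge ε 1 with hε1 | hε1
    · obtain ⟨k, hk⟩ : ∃ k, k = Nat.findGreatest (fun k => Pw w * sur M c k ≤ (1 - ε / 2) * L ^ 2) m := ⟨_, rfl⟩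
      have h0 : Pw w * sur M c 0 ≤ (1 - ε / 2) * L ^ 2 := by
        rw [sur_zero, Nat.cast_zero, mul_zero]
        apply mul_nonneg (by linarith) (by positivity)
      have hk1 : Pw w * sur M c k ≤ (1 - ε / 2) * L ^ 2 := by
        rw [hk]
        exact Nat.findGreatest_spec (P := fun k => Pw w * sur M c k ≤ (1 - ε / 2) * L ^ 2) (Nat.zero_le m) h0
      have hkm : k ≤ m := by rw [hk]; exact Nat.findGreatest_le m
      have hkm' : k < m := by
        rcases hkm.lt_or_eq with h | h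
        · exact h
        · exfalso
          rw [h] at hk1
          have : 0 < L ^ 2 := by positivity
          nlinarith
      have hk2 : (1 - ε) * L ^ 2 ≤ Pw w * sur M c k := by
        have e1 : ¬ (Pw w * sur M c (k + 1) ≤ (1 - ε / 2) * L ^ 2) :=
          Nat.findGreatest_is_greatest (P := fun k => Pw w * sur M c k ≤ (1 - ε / 2) * L ^ 2) (n := m) (by rw [← hk]; omega) (by omega)
        have e2 : (sur M c (k + 1) : ℝ) ≤ sur M c k + 1 := by exact_mod_cast sur_succ M c k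
        have e3 := mul_le_mul_of_nonneg_left e2 (by linarith : (0 : ℝ) ≤ Pw w)
        rw [not_le] at e1
        nlinarith
      clear hk
      obtain ⟨r, rfl⟩ := Nat.exists_eq_add_of_le hkm
      have d1 := k2 k (fun j => c j) (fun j => b j) (fun j => hb _) (by rw [rest_eq]; exact hk1)
      have d2 := projC k r W B2 ((Fintype.piFinset fun j : Fin k => cls M (c j) (b j) q).filter
        fun s => ¬ ((N : ℝ) ^ (1 - Pw w * rest M (fun j : Fin k => c j) / L ^ 2 - ε / 2) ≤ (sv (Icc 1 N) s).card ∧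
          ((sv (Icc 1 N) s).card : ℝ) ≤ (N : ℝ) ^ (1 - Pw w * rest M (fun j : Fin k => c j) / L ^ 2 + ε / 2))) (by
          intro s hs
          rw [hB2, mem_filter, hΩ, Fintype.mem_piFinset] at hs
          refine ⟨fun j => by rw [← hWj]; exact hs.1 j, ?_⟩
          rw [mem_filter, Fintype.mem_piFinset]
          refine ⟨fun j => hs.1 (Fin.castAdd r j), ?_⟩
          rintro ⟨h1, _⟩
          rw [rest_eq] at h1
          have e1 : (0 : ℝ) ≤ 1 - Pw w * sur M c k / L ^ 2 - ε / 2 := by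
            have : Pw w * sur M c k / L ^ 2 ≤ 1 - ε / 2 := by rwa [div_le_iff₀ (by positivity)]
            linarith
          have e2 : (1 : ℝ) ≤ (sv (Icc 1 N) fun j : Fin k => s (Fin.castAdd r j)).card := (Real.one_le_rpow hN1 e1).trans h1
          have e3 : 0 < (sv (Icc 1 N) fun j : Fin k => s (Fin.castAdd r j)).card := by exact_mod_cast e2
          obtain ⟨n, hn⟩ := card_pos.1 e3
          unfold sv at hn
          rw [mem_filter, mem_Icc] at hn
          have e4 : Free N k s := ⟨n, hn.1.1, hn.1.2, fun j hj => by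
            have := hn.2 ⟨j, hj⟩
            simpa using this⟩
          have e5 : k ≤ run N s := Nat.le_findGreatest (Nat.le_add_right _ _) e4
          have e6 : (sur M c k : ℝ) ≤ sur M c (run N s) := by exact_mod_cast sur_mono M c k _ e5
          have e7 := mul_le_mul_of_nonneg_left e6 (by linarith : (0 : ℝ) ≤ Pw w)
          linarith [hs.2])
      refine d2.trans ((mul_le_mul_of_nonneg_right d1 (prod_nonneg fun _ _ => Nat.cast_nonneg _)).trans (le_of_eq ?_))
      have e0 : ∏ j : Fin k, ((cls M (c j) (b j) q).card : ℝ) = ∏ j : Fin k, ((W j).card : ℝ) := by rw [hW]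
      have e0' : Q = ∏ j : Fin (k + r), ((W j).card : ℝ) := by rw [hQ, hW]
      rw [e0, mul_assoc, ← prod_split, ← e0']
    · have : B2 = ∅ := by
        rw [hB2, filter_eq_empty_iff]
        intro s _ h
        have h1 : (0 : ℝ) ≤ Pw w * sur M c (run N s) := by positivity
        have h2 : 0 < L ^ 2 := by positivity
        nlinarith
      rw [this, card_empty, Nat.cast_zero]
      positivity
  have c3 : (Ω.filter fun s => ε * L ^ 2 < |Pw w * sur M c (run N s) - L ^ 2|) ⊆ B1 ∪ B2 := by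
    intro s hs
    rw [mem_filter] at hs
    rw [mem_union, hB1, hB2, mem_filter, mem_filter]
    rcases lt_abs.1 hs.2 with h | h
    · left
      exact ⟨hs.1, by linarith⟩
    · right
      exact ⟨hs.1, by linarith⟩
  have c4 : (((Ω.filter fun s => ε * L ^ 2 < |Pw w * sur M c (run N s) - L ^ 2|)).card : ℝ) ≤ B1.card + B2.card := by
    exact_mod_cast (card_le_card c3).trans (card_union_le B1 B2)
  linarith

/-- perturbed intervals -/
theorem law_i (ε : ℝ) (hε : 0 < ε) : ∃ w₀ : ℕ, ∀ T a w : ℕ, w₀ ≤ w → ∀ M : ℕ, 1 ≤ M → (∀ p : ℕ, p.Prime → (p ∣ M ↔ p ≤ w)) →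
    ∀ᶠ N : ℕ in atTop, ∀ q : ℕ, (N : ℝ) ≤ q * Real.log N ^ a → q ≤ N →
    ∀ (m : ℕ) (c b : ℕ → ℕ), (∀ j, b j ≤ T * N) → (∀ j < m, c j = j) → (1 + ε) * Real.log N ^ 2 ≤ m →
      (((Fintype.piFinset fun j : Fin m => cls M (c j) (b j) q).filter fun s =>
        ε * Real.log N ^ 2 < |(run N s : ℝ) - Real.log N ^ 2|).card : ℝ) ≤
        ε * ∏ j : Fin m, ((cls M (c j) (b j) q).card : ℝ) := by
  classical
  obtain ⟨w₀, hw₀⟩ := law_r (ε / 2) (by positivity)
  refine ⟨w₀, fun T a w hw M hM1 hM => ?_⟩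
  have hP := one_le_Pw w
  filter_upwards [hw₀ T a w hw M hM1 hM, ev_log 1, ev_log (2 * M / ε)] with N g1 g2 g3 q hq hqN m c b hb hc hm
  have k1 := g1 q hq hqN m c b hb
  obtain ⟨L, hL⟩ : ∃ L, L = Real.log (N : ℝ) := ⟨_, rfl⟩
  rw [← hL] at g2 g3 hm k1 ⊢
  have hLL : 2 * M ≤ ε * L ^ 2 := by
    rw [div_le_iff₀ hε] at g3
    nlinarith
  have hid : ∀ k ≤ m, |Pw w * sur M c k - k| ≤ M := fun k hk => sur_id w M hM1 hM c k (fun j hj => hc j (by omega))
  have h1 := (abs_le.1 (hid m le_rfl)).1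
  have k2 := k1 (by linarith)
  refine (le_trans ?_ k2).trans ?_
  · have : ((Fintype.piFinset fun j : Fin m => cls M (c j) (b j) q).filter fun s => ε * L ^ 2 < |(run N s : ℝ) - L ^ 2|) ⊆
        ((Fintype.piFinset fun j : Fin m => cls M (c j) (b j) q).filter fun s => ε / 2 * L ^ 2 < |Pw w * sur M c (run N s) - L ^ 2|) := by
      intro s hs
      rw [mem_filter] at hs ⊢
      refine ⟨hs.1, ?_⟩
      have h2 := hid (run N s) (Nat.findGreatest_le m)
      have h3 : |(run N s : ℝ) - L ^ 2| ≤ |(run N s : ℝ) - Pw w * sur M c (run N s)| + |Pw w * sur M c (run N s) - L ^ 2| :=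
        abs_sub_le _ _ _
      rw [abs_sub_comm] at h2
      linarith [hs.2]
    exact_mod_cast card_le_card this
  · apply mul_le_mul_of_nonneg_right _ (prod_nonneg fun _ _ => Nat.cast_nonneg _)
    linarith

end Pool.Agent.Run7.h931.RL
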