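import Pool.Agent.Run7.h931.RL.NtA
import Pool.Agent.W93.PP2

/-!
# Random shifts in residue classes, part 2: prime pairs in progressions in windows, on average over the difference
-/

set_option autoImplicit false

namespace Pool.Agent.Run7.h931.RL

open Finset Filter
open Pool.Agent.Run7.h931.RS (Pw Fw one_le_Pw one_le_Fw fac_ge sum_fin_one)
open Pool.Agent.H373R2.T7 (lamI lamzI vl sys_diff ev_L' ev_log' Vz pz mem_pz lamI_nonneg)
open Pool.Agent.W93.PP (MT PS mem_PS ap_main)

/-- the number of the `t ≡ r` modulo `M` in `(x, x + q]` for which `t` and `t + h` are primes -/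
def Ca (M r x q h : ℕ) : ℕ := ((Ioc x (x + q)).filter fun t => (t.Prime ∧ (t + h).Prime) ∧ t ≡ r [MOD M]).card

noncomputable def Sa (M r h y : ℕ) : ℝ := ∑ n ∈ Icc 1 y, (if n ≡ r [MOD M] then ArithmeticFunction.vonMangoldt n else 0) *
  lamI ((n : ℤ) + (h : ℤ))

lemma sa_nn (M r h n : ℕ) : 0 ≤ (if n ≡ r [MOD M] then ArithmeticFunction.vonMangoldt n else 0) * lamI ((n : ℤ) + (h : ℤ)) := by
  apply mul_nonneg
  · split_ifs
    · exact ArithmeticFunction.vonMangoldt_nonneg
    · exact le_rfl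
  · exact lamI_nonneg _

lemma Ca_window (M r x q h : ℕ) (hx : 1 ≤ x) : Ca M r x q h * Real.log x ^ 2 ≤ Sa M r h (x + q) - Sa M r h x := by
  classical
  have h1 : Sa M r h (x + q) - Sa M r h x = ∑ n ∈ Ioc x (x + q),
      (if n ≡ r [MOD M] then ArithmeticFunction.vonMangoldt n else 0) * lamI ((n : ℤ) + (h : ℤ)) := by
    unfold Sa
    rw [sub_eq_iff_eq_add, add_comm, ← sum_union]
    · congr 1
      ext n
      simp only [mem_union, mem_Ioc, mem_Icc]
      omega
    · rw [disjoint_left]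
      intro n h1 h2
      simp only [mem_Icc, mem_Ioc] at h1 h2
      omega
  rw [h1]
  unfold Ca
  rw [← nsmul_eq_mul, ← sum_const]
  refine le_trans (sum_le_sum (fun t ht => ?_)) (sum_le_sum_of_subset_of_nonneg (filter_subset _ _) fun n _ _ => sa_nn M r h n)
  rw [mem_filter, mem_Ioc] at ht
  have e : ((t : ℤ) + (h : ℤ)).toNat = t + h := by omega
  have e2 : lamI ((t : ℤ) + (h : ℤ)) = Real.log ((t + h : ℕ) : ℝ) := by
    unfold lamI
    rw [if_pos (by omega), e, ArithmeticFunction.vonMangoldt_apply_prime ht.2.1.2]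
  rw [if_pos ht.2.2, e2, ArithmeticFunction.vonMangoldt_apply_prime ht.2.1.1, sq]
  have hxr : (1 : ℝ) ≤ x := by exact_mod_cast hx
  have ht1 : (x : ℝ) ≤ t := by exact_mod_cast ht.1.1.le
  have h0 : 0 ≤ Real.log x := Real.log_nonneg hxr
  have h1 : Real.log x ≤ Real.log t := Real.log_le_log (by linarith) ht1
  have h2 : Real.log x ≤ Real.log ((t + h : ℕ) : ℝ) := by
    apply Real.log_le_log (by linarith)
    push_cast
    linarith [Nat.cast_nonneg (α := ℝ) h]
  exact mul_le_mul h1 h2 h0 (h0.trans h1)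

/-- the error term up to `y` -/
noncomputable def era (M r z y h : ℕ) : ℝ := |∑ n ∈ Icc 1 y, (if n ≡ r [MOD M] then ArithmeticFunction.vonMangoldt n else 0) *
  (lamI ((n : ℤ) + (h : ℤ)) - lamzI z ((n : ℤ) + (h : ℤ)))|

theorem era_avg (T U M : ℕ) : ∃ B0 : ℕ, ∀ E : ℕ, ∀ᶠ N : ℕ in atTop, ∀ z : ℕ,
    Real.log ((T + 2) * N : ℕ) ^ B0 ≤ z → (z : ℝ) ≤ Real.log ((T + 2) * N : ℕ) ^ E → ∀ r y : ℕ, y ≤ (T + 2) * N →
    ∑ h ∈ Icc 1 N, era M r z y h ≤ (((T + 2) * N : ℕ) : ℝ) * N / Real.log N ^ U := by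
  classical
  obtain ⟨B0, hB0⟩ := sys_diff (k := 1) (fun _ => Polynomial.X) (fun _ => by simp) (fun _ => by simp)
    (fun _ => 1) (fun _ => Or.inl rfl) (T + 2) (by omega) U
  refine ⟨B0, fun E => ?_⟩
  obtain ⟨N0, hN0⟩ := hB0 E
  filter_upwards [eventually_ge_atTop N0, eventually_ge_atTop 3] with N h1 h2 z hz1 hz2 r y hy
  obtain ⟨X, hX⟩ : ∃ X : ℕ, X = (T + 2) * N := ⟨_, rfl⟩
  rw [← hX] at hz1 hz2 hy ⊢
  have hNX : N ≤ X := by rw [hX]; exact Nat.le_mul_of_pos_left _ (by omega)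
  have hXr : (3 : ℝ) ≤ X := by exact_mod_cast h2.trans hNX
  have a1 := hN0 X (h1.trans hNX) (fun _ => N) (fun i => by
    rw [Polynomial.natDegree_X, pow_one]
    exact ⟨by nlinarith, le_of_eq hX⟩) z hz1 hz2 (fun n => if n ≤ y then
      (if n ≡ r [MOD M] then ArithmeticFunction.vonMangoldt n else 0) else 0) (by
      intro n hn
      rw [mem_Icc] at hn
      have hlog : ArithmeticFunction.vonMangoldt n ≤ Real.log X := by
        refine ArithmeticFunction.vonMangoldt_le_log.trans ?_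
        exact Real.log_le_log (by exact_mod_cast hn.1) (by exact_mod_cast hn.2)
      split_ifs
      · rw [abs_of_nonneg ArithmeticFunction.vonMangoldt_nonneg]
        exact hlog
      · rw [abs_zero]
        exact Real.log_natCast_nonneg _
      · rw [abs_zero]
        exact Real.log_natCast_nonneg _)
  have e1 : ∀ a : Fin 1 → ℕ, |∑ n ∈ Icc 1 X, (if n ≤ y then
      (if n ≡ r [MOD M] then ArithmeticFunction.vonMangoldt n else 0) else 0) *
      (∏ i, lamI (vl (fun _ : Fin 1 => Polynomial.X) (fun _ => 1) a i n) -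
        ∏ i, lamzI z (vl (fun _ : Fin 1 => Polynomial.X) (fun _ => 1) a i n))| = era M r z y (a 0) := by
    intro a
    unfold era
    congr 1
    have e2 : Icc 1 y = (Icc 1 X).filter (fun n => n ≤ y) := by
      ext n
      rw [mem_filter, mem_Icc, mem_Icc]
      constructor
      · rintro ⟨a, b⟩
        exact ⟨⟨a, b.trans hy⟩, b⟩
      · rintro ⟨⟨a, _⟩, b⟩
        exact ⟨a, b⟩
    rw [e2, sum_filter]
    apply sum_congr rfl
    intro n _
    have e3 : ∀ i : Fin 1, vl (fun _ : Fin 1 => Polynomial.X) (fun _ => 1) a i n = (n : ℤ) + (a 0 : ℤ) := by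
      intro i
      unfold vl
      rw [Polynomial.eval_X, Subsingleton.elim i 0]
      ring
    simp only [e3, Fin.prod_univ_one]
    by_cases hny : n ≤ y
    · rw [if_pos hny, if_pos hny]
    · rw [if_neg hny, if_neg hny, zero_mul]
  rw [sum_congr rfl fun a _ => e1 a, sum_fin_one (Icc 1 N) (fun h => era M r z y h)] at a1
  rw [Fin.prod_univ_one] at a1
  refine a1.trans ?_
  have hN1 : (1 : ℝ) < N := by
    have : (3 : ℝ) ≤ N := by exact_mod_cast h2
    linarith
  apply div_le_div_of_nonneg_left (by positivity) (by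
    have : 0 < Real.log N := Real.log_pos hN1
    positivity)
  apply pow_le_pow_left₀ (Real.log_nonneg hN1.le)
  exact Real.log_le_log (by linarith) (by exact_mod_cast hNX)

/-- the singular series of the progression -/
lemma MT_le_Fw (w M z h : ℕ) (hM : ∀ p : ℕ, p.Prime → (p ∣ M ↔ p ≤ w)) (hh : 1 ≤ h) :
    MT z M h ≤ Pw w / Nat.totient M * Fw w h := by
  classical
  have hφ : (0 : ℝ) ≤ (Nat.totient M : ℝ) := Nat.cast_nonneg _
  have key : (Vz z)⁻¹ * ∏ p ∈ PS z M h, (1 - 1 / (p - 1 : ℝ)) ≤ Pw w * Fw w h := by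
    have e1 : (Vz z)⁻¹ = ∏ p ∈ pz z, ((p : ℝ) / ((p : ℝ) - 1)) := by
      unfold Vz
      rw [← prod_inv_distrib]
      apply prod_congr rfl
      intro p hp
      have h2 : (2 : ℝ) ≤ p := by exact_mod_cast (mem_pz.1 hp).2.two_le
      have h3 : (p : ℝ) - 1 ≠ 0 := by linarith
      have h4 : (p : ℝ) ≠ 0 := by linarith
      rw [one_sub_div h4, inv_div]
    have e2 : ∏ p ∈ PS z M h, (1 - 1 / (p - 1 : ℝ)) = ∏ p ∈ pz z, (if p ∈ PS z M h then (1 - 1 / (p - 1 : ℝ)) else 1) := by
      rw [prod_ite_mem]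
      congr 1
      have : PS z M h ⊆ pz z := filter_subset _ _
      rw [inter_eq_right.2 this]
    rw [e1, e2, ← prod_mul_distrib]
    have e3 : ∏ p ∈ pz z, ((p : ℝ) / ((p : ℝ) - 1) * (if p ∈ PS z M h then (1 - 1 / (p - 1 : ℝ)) else 1)) ≤
        ∏ p ∈ pz z, ((if p ≤ w then (p : ℝ) / ((p : ℝ) - 1) else 1) * (if p ∣ h ∧ w < p then (p : ℝ) / ((p : ℝ) - 1) else 1)) := by
      apply Finset.prod_le_prod
      · intro p hp
        have h2 : (2 : ℝ) ≤ p := by exact_mod_cast (mem_pz.1 hp).2.two_le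
        have h3 : 0 < (p : ℝ) - 1 := by linarith
        apply mul_nonneg (by positivity)
        split_ifs
        · have : 1 / ((p : ℝ) - 1) ≤ 1 := by rw [div_le_one h3]; linarith
          linarith
        · exact zero_le_one
      · intro p hp
        rw [mem_pz] at hp
        have h2 : (2 : ℝ) ≤ p := by exact_mod_cast hp.2.two_le
        have h3 : 0 < (p : ℝ) - 1 := by linarith
        have h4 := fac_ge hp.2
        have hMp := hM p hp.2
        by_cases hpw : p ≤ w
        · have hn : p ∉ PS z M h := fun hh => (mem_PS.1 hh).2.1 (hMp.2 hpw)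
          rw [if_neg hn, if_pos hpw, if_neg (by rintro ⟨_, h⟩; omega)]
        · by_cases hph : p ∣ h
          · have hn : p ∉ PS z M h := fun hh => (mem_PS.1 hh).2.2 hph
            rw [if_neg hn, if_neg hpw, if_pos ⟨hph, by omega⟩]
            linarith
          · have hn : p ∈ PS z M h := mem_PS.2 ⟨hp, fun hh => hpw (hMp.1 hh), hph⟩
            rw [if_pos hn, if_neg hpw, if_neg (by rintro ⟨h, _⟩; exact hph h), one_mul]
            have e4 : (p : ℝ) / ((p : ℝ) - 1) * (1 - 1 / (p - 1 : ℝ)) = ((p : ℝ) * (p - 2)) / ((p : ℝ) - 1) ^ 2 := by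
              field_simp
              ring
            rw [e4, div_le_one (by positivity)]
            nlinarith
    refine e3.trans ?_
    rw [prod_mul_distrib]
    have f1 : ∏ p ∈ pz z, (if p ≤ w then (p : ℝ) / ((p : ℝ) - 1) else 1) ≤ Pw w := by
      unfold Pw
      rw [← prod_filter]
      apply Finset.prod_le_prod_of_subset_of_one_le
      · intro p hp
        rw [mem_filter, mem_pz] at hp
        rw [mem_filter, mem_Icc]
        exact ⟨⟨hp.1.2.pos, hp.2⟩, hp.1.2⟩
      · intro p hp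
        rw [mem_filter, mem_pz] at hp
        have := fac_ge hp.1.2
        linarith
      · intro p hp _
        exact fac_ge (mem_filter.1 hp).2
    have f2 : ∏ p ∈ pz z, (if p ∣ h ∧ w < p then (p : ℝ) / ((p : ℝ) - 1) else 1) ≤ Fw w h := by
      unfold Fw
      rw [← prod_filter]
      apply Finset.prod_le_prod_of_subset_of_one_le
      · intro p hp
        rw [mem_filter, mem_pz] at hp
        rw [mem_filter, Nat.mem_primeFactors]
        exact ⟨⟨hp.1.2, hp.2.1, by omega⟩, hp.2.2⟩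
      · intro p hp
        rw [mem_filter, mem_pz] at hp
        have := fac_ge hp.1.2
        linarith
      · intro p hp _
        exact fac_ge (Nat.prime_of_mem_primeFactors (mem_filter.1 hp).1)
    have f3 : 0 ≤ ∏ p ∈ pz z, (if p ∣ h ∧ w < p then (p : ℝ) / ((p : ℝ) - 1) else 1) := by
      apply Finset.prod_nonneg
      intro p hp
      have := fac_ge (mem_pz.1 hp).2
      split_ifs
      · linarith
      · exact zero_le_one
    exact mul_le_mul f1 f2 f3 (zero_le_one.trans (one_le_Pw w))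
  unfold MT
  calc (Vz z)⁻¹ / (Nat.totient M : ℝ) * ∏ p ∈ PS z M h, (1 - 1 / (p - 1 : ℝ)) =
      ((Vz z)⁻¹ * ∏ p ∈ PS z M h, (1 - 1 / (p - 1 : ℝ))) / (Nat.totient M : ℝ) := by ring
    _ ≤ (Pw w * Fw w h) / (Nat.totient M : ℝ) := div_le_div_of_nonneg_right key hφ
    _ = _ := by ring

lemma Ca_mod (M r x q h : ℕ) : Ca M r x q h = Ca M (r % M) x q h := by
  unfold Ca
  congr 1
  apply filter_congr
  intro t _
  have : r % M ≡ r [MOD M] := Nat.mod_modEq r M
  constructor
  · rintro ⟨h1, h2⟩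
    exact ⟨h1, h2.trans this.symm⟩
  · rintro ⟨h1, h2⟩
    exact ⟨h1, h2.trans this⟩

/-- prime pairs in a progression for almost all differences, with the sharp constant -/
theorem hl_ap (T a A w M : ℕ) (hM1 : 1 ≤ M) (hM : ∀ p : ℕ, p.Prime → (p ∣ M ↔ p ≤ w)) (δ : ℝ) (hδ : 0 < δ) :
    ∀ᶠ N : ℕ in atTop, ∀ x q : ℕ, N ≤ 2 * x → x ≤ (T + 1) * N →
    (N : ℝ) ≤ q * Real.log N ^ a → q ≤ N → ∃ E : Finset ℕ, (E.card : ℝ) ≤ N / Real.log N ^ A ∧ ∀ h : ℕ, 1 ≤ h → h ≤ N →
      h ∉ E → ∀ r : ℕ, r.Coprime M → (r + h).Coprime M →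
      (Ca M r x q h : ℝ) ≤ (1 + δ) * (Pw w / Nat.totient M * Fw w h) * (q / Real.log N ^ 2) := by
  classical
  obtain ⟨B0, hB0⟩ := era_avg T (a + A + 5) M
  obtain ⟨n0, hn0⟩ := ap_main (B0 + 2) (a + 2)
  obtain ⟨K, hK⟩ : ∃ K : ℝ, K = 2 + 2 * (T + 2) * 2 ^ (a + 2) := ⟨_, rfl⟩
  have hT : (0 : ℝ) ≤ T := Nat.cast_nonneg T
  have hK0 : 2 ≤ K := by rw [hK]; have : (0 : ℝ) ≤ 2 * (T + 2) * 2 ^ (a + 2) := by positivity
                         linarith
  have hMr : (1 : ℝ) ≤ M := by exact_mod_cast hM1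
  obtain ⟨n3, h3⟩ := ev_L' (2 * (T + 2) + 2 * (4 ^ B0 + 1) + (4 + 5 * K) / δ + 8 + 2 * M)
  filter_upwards [hB0 (B0 + 1), eventually_ge_atTop (2 * n0), eventually_ge_atTop n3, eventually_ge_atTop 3] with
    N h1 g2 g3 g4 x q hxN hx hqa hq
  have hNr : (3 : ℝ) ≤ N := by exact_mod_cast g4
  have a3 := h3 N g3
  obtain ⟨L, hL⟩ : ∃ L, L = Real.log (N : ℝ) := ⟨_, rfl⟩
  obtain ⟨X, hX⟩ : ∃ X : ℕ, X = (T + 2) * N := ⟨_, rfl⟩
  rw [← hL] at a3 hqa ⊢
  rw [← hX, ← hL] at h1
  have h4B : (1 : ℝ) ≤ 4 ^ B0 := one_le_pow₀ (by norm_num)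
  have hKd : 0 ≤ (4 + 5 * K) / δ := by positivity
  have hL8 : 8 ≤ L := by linarith
  have hL0 : 0 < L := by linarith
  have hNX : N ≤ X := by rw [hX]; exact Nat.le_mul_of_pos_left _ (by omega)
  have hXr : (X : ℝ) = (T + 2) * N := by rw [hX]; push_cast; ring
  have hX0 : (0 : ℝ) < X := by rw [hXr]; positivity
  have hLX : L ≤ Real.log X := by
    rw [hL]
    exact Real.log_le_log (by linarith) (by exact_mod_cast hNX)
  have hLX2 : Real.log X ≤ 2 * L := by
    rw [hXr, Real.log_mul (by positivity) (by positivity), ← hL]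
    have : Real.log ((T : ℝ) + 2) ≤ T + 2 := (Real.log_le_sub_one_of_pos (by linarith)).trans (by linarith)
    linarith
  -- logarithms of the prefixes
  have hlogy : ∀ y : ℕ, N ≤ 2 * y → L - 1 ≤ Real.log y := by
    intro y hy
    have hyr : (N : ℝ) ≤ 2 * y := by exact_mod_cast hy
    have : Real.log N ≤ Real.log (2 * y) := Real.log_le_log (by linarith) hyr
    rw [Real.log_mul (by norm_num) (by linarith), ← hL] at this
    linarith [Real.log_two_lt_d9]
  -- the level
  obtain ⟨z, hz⟩ : ∃ z : ℕ, z = ⌈Real.log (X : ℝ) ^ B0⌉₊ := ⟨_, rfl⟩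
  have hlX0 : 0 ≤ Real.log (X : ℝ) := by linarith
  have hz1 : Real.log (X : ℝ) ^ B0 ≤ z := by rw [hz]; exact Nat.le_ceil _
  have hz2 : (z : ℝ) ≤ Real.log (X : ℝ) ^ B0 + 1 := by rw [hz]; exact (Nat.ceil_lt_add_one (by positivity)).le
  have hp1 : 1 ≤ Real.log (X : ℝ) ^ B0 := one_le_pow₀ (by linarith)
  have hz3 : (z : ℝ) ≤ Real.log (X : ℝ) ^ (B0 + 1) := by
    refine hz2.trans ?_
    rw [pow_succ]
    nlinarith
  have hz4 : 1 ≤ z := by
    have : (1 : ℝ) ≤ z := hp1.trans hz1
    exact_mod_cast this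
  have hz5 : ∀ y : ℕ, N ≤ 2 * y → (z : ℝ) ≤ Real.log y ^ (B0 + 2) := by
    intro y hy
    have b1 := hlogy y hy
    have b2 : Real.log X ≤ 4 * Real.log y := by linarith
    have b3 : Real.log (X : ℝ) ^ B0 ≤ 4 ^ B0 * Real.log y ^ B0 := by
      rw [← mul_pow]
      exact pow_le_pow_left₀ hlX0 b2 _
    have b4 : 1 ≤ Real.log y ^ B0 := one_le_pow₀ (by linarith)
    have b5 : 4 ^ B0 + 1 ≤ Real.log y := by linarith
    have b6 : (z : ℝ) ≤ Real.log y ^ (B0 + 1) := by
      calc (z : ℝ) ≤ 4 ^ B0 * Real.log y ^ B0 + 1 := by linarith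
        _ ≤ (4 ^ B0 + 1) * Real.log y ^ B0 := by linarith
        _ ≤ Real.log y * Real.log y ^ B0 := mul_le_mul_of_nonneg_right b5 (by linarith)
        _ = _ := by rw [pow_succ]; ring
    exact b6.trans (pow_le_pow_right₀ (by linarith) (by omega))
  have hM5 : ∀ y : ℕ, N ≤ 2 * y → (M : ℝ) ≤ Real.log y ^ (B0 + 2) := by
    intro y hy
    have b1 := hlogy y hy
    have b2 : (M : ℝ) ≤ Real.log y := by linarith
    exact b2.trans (le_self_pow₀ (by linarith) (by omega))
  have hxq : x + q ≤ X := by rw [hX]; nlinarith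
  have e1 := fun r => h1 z hz1 hz3 r x (by omega)
  have e2 := fun r => h1 z hz1 hz3 r (x + q) hxq
  have hY : (0 : ℝ) < N / L ^ (a + 2) := by positivity
  refine ⟨(Icc 1 N).filter (fun h => ∃ r ∈ range M, N / L ^ (a + 2) < era M r z x h ∨ N / L ^ (a + 2) < era M r z (x + q) h), ?_, ?_⟩
  · have c1 : (((Icc 1 N).filter (fun h => ∃ r ∈ range M, N / L ^ (a + 2) < era M r z x h ∨
        N / L ^ (a + 2) < era M r z (x + q) h)).card : ℝ) *
        (N / L ^ (a + 2)) ≤ ∑ h ∈ Icc 1 N, ∑ r ∈ range M, (era M r z x h + era M r z (x + q) h) := by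
      rw [← nsmul_eq_mul, ← sum_const]
      have nn : ∀ h, 0 ≤ ∑ r ∈ range M, (era M r z x h + era M r z (x + q) h) := fun h =>
        sum_nonneg fun r _ => add_nonneg (abs_nonneg _) (abs_nonneg _)
      refine le_trans (sum_le_sum (fun h hh => ?_)) (sum_le_sum_of_subset_of_nonneg (filter_subset _ _) fun h _ _ => nn h)
      rw [mem_filter] at hh
      obtain ⟨r, hr, hh2⟩ := hh.2
      refine le_trans ?_ (single_le_sum (f := fun r => era M r z x h + era M r z (x + q) h)
        (fun r _ => add_nonneg (abs_nonneg _) (abs_nonneg _)) hr)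
      have f1 : 0 ≤ era M r z x h := abs_nonneg _
      have f2 : 0 ≤ era M r z (x + q) h := abs_nonneg _
      rcases hh2 with h | h <;> linarith
    rw [sum_comm] at c1
    have c2 : ∑ r ∈ range M, ∑ h ∈ Icc 1 N, (era M r z x h + era M r z (x + q) h) ≤ (N / L ^ A) * (N / L ^ (a + 2)) := by
      have c3 : ∀ r ∈ range M, ∑ h ∈ Icc 1 N, (era M r z x h + era M r z (x + q) h) ≤ 2 * (X * N / L ^ (a + A + 5)) := by
        intro r _
        rw [sum_add_distrib]
        linarith [e1 r, e2 r]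
      refine (sum_le_sum c3).trans ?_
      rw [sum_const, card_range, nsmul_eq_mul]
      calc (M : ℝ) * (2 * (X * N / L ^ (a + A + 5))) = ((2 * M) * (T + 2)) * (N * N) / L ^ (a + A + 5) := by rw [hXr]; ring
        _ ≤ (L * L) * (N * N) / L ^ (a + A + 5) := by
            apply div_le_div_of_nonneg_right _ (by positivity)
            apply mul_le_mul_of_nonneg_right _ (by positivity)
            exact mul_le_mul (by linarith) (by linarith) (by linarith) hL0.le
        _ = (N / L ^ A) * (N / L ^ (a + 2)) / L := by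
            rw [div_mul_div_comm, ← pow_add, div_div, div_eq_div_iff (by positivity) (by positivity)]
            ring
        _ ≤ _ := div_le_self (by positivity) (by linarith)
    exact le_of_mul_le_mul_right (c1.trans c2) hY
  · intro h hh1 hh2 hE r hr hrh
    rw [Ca_mod]
    have hr' : (r % M).Coprime M := by
      rw [Nat.coprime_iff_gcd_eq_one, ← Nat.gcd_rec, Nat.gcd_comm]
      exact hr
    have hrh' : (r % M + h).Coprime M := by
      have e : (r % M + h) ≡ (r + h) [MOD M] := Nat.ModEq.add_right h (Nat.mod_modEq r M)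
      rw [Nat.coprime_iff_gcd_eq_one, e.gcd_eq]
      exact hrh
    have hrM : r % M ∈ range M := mem_range.2 (Nat.mod_lt _ hM1)
    obtain ⟨ρ, hρ⟩ : ∃ ρ, ρ = r % M := ⟨_, rfl⟩
    rw [← hρ] at hr' hrh' hrM ⊢
    rw [mem_filter, not_and] at hE
    have hE' := hE (mem_Icc.2 ⟨hh1, hh2⟩)
    push Not at hE'
    obtain ⟨f1, f2⟩ := hE' ρ hrM
    have hd : ∀ y : ℕ, N ≤ 2 * y → y ≤ X → era M ρ z y h ≤ N / L ^ (a + 2) →
        |Sa M ρ h y - MT z M h * y| ≤ K / 2 * (N / L ^ (a + 2)) := by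
      intro y hy hyX he
      have d1 := hn0 y (by omega) z hz4 (hz5 y hy) M ρ h hM1 (hM5 y hy) hr' hrh'
      have d2 : Sa M ρ h y - MT z M h * y = (∑ n ∈ Icc 1 y, (if n ≡ ρ [MOD M] then ArithmeticFunction.vonMangoldt n else 0) *
          (lamI ((n : ℤ) + (h : ℤ)) - lamzI z ((n : ℤ) + (h : ℤ)))) +
          (∑ n ∈ Icc 1 y, (if n ≡ ρ [MOD M] then ArithmeticFunction.vonMangoldt n else 0) * lamzI z ((n : ℤ) + (h : ℤ)) - MT z M h * y) := by
        unfold Sa
        simp only [mul_sub, sum_sub_distrib]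
        ring
      rw [d2]
      refine (abs_add_le _ _).trans ?_
      have d3 : (y : ℝ) / Real.log y ^ (a + 2) ≤ (T + 2) * 2 ^ (a + 2) * (N / L ^ (a + 2)) := by
        have d4 : L / 2 ≤ Real.log y := by linarith [hlogy y hy]
        calc (y : ℝ) / Real.log y ^ (a + 2) ≤ X / (L / 2) ^ (a + 2) := by
              apply div_le_div₀ hX0.le (by exact_mod_cast hyX) (by positivity)
              exact pow_le_pow_left₀ (by positivity) d4 _
          _ = _ := by rw [hXr, div_pow]; field_simp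
      have d5 : era M ρ z y h = |∑ n ∈ Icc 1 y, (if n ≡ ρ [MOD M] then ArithmeticFunction.vonMangoldt n else 0) *
          (lamI ((n : ℤ) + (h : ℤ)) - lamzI z ((n : ℤ) + (h : ℤ)))| := rfl
      rw [← d5, hK]
      linarith
    have d1 := hd x hxN (by omega) f1
    have d2 := hd (x + q) (by omega) hxq f2
    have hx1 : 1 ≤ x := by omega
    have d3 := Ca_window M ρ x q h hx1
    have d4 := MT_le_Fw w M z h hM hh1
    have hφ0 : (0 : ℝ) < Nat.totient M := by exact_mod_cast Nat.totient_pos.2 hM1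
    have hφ : (Nat.totient M : ℝ) ≤ L := by
      have : (Nat.totient M : ℝ) ≤ M := by exact_mod_cast Nat.totient_le M
      linarith
    have hq0 : (0 : ℝ) ≤ q := Nat.cast_nonneg q
    have hF1 := one_le_Fw w h
    have hP1 := one_le_Pw w
    obtain ⟨F, hF⟩ : ∃ F, F = Pw w / Nat.totient M * Fw w h := ⟨_, rfl⟩
    rw [← hF] at d4 ⊢
    have hF0 : 1 / Nat.totient M ≤ F := by
      rw [hF, div_mul_eq_mul_div]
      apply div_le_div_of_nonneg_right _ hφ0.le
      nlinarith
    have hFpos : 0 < F := lt_of_lt_of_le (by positivity) hF0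
    have d5 : (N : ℝ) / L ^ (a + 2) ≤ F * (q / L) := by
      have g0 : (N : ℝ) / L ^ (a + 2) ≤ (1 / Nat.totient M) * (q / L) := by
        rw [div_mul_div_comm, one_mul, div_le_div_iff₀ (by positivity) (by positivity), pow_succ, pow_succ]
        calc (N : ℝ) * (Nat.totient M * L) ≤ (q * L ^ a) * (L * L) := by
              apply mul_le_mul hqa _ (by positivity) (by positivity)
              exact mul_le_mul_of_nonneg_right hφ hL0.le
          _ = _ := by ring
      exact g0.trans (mul_le_mul_of_nonneg_right hF0 (by positivity))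
    have d6 : Ca M ρ x q h * Real.log x ^ 2 ≤ F * q + K * (F * (q / L)) := by
      have g1 := (abs_le.1 d2).2
      have g2 := (abs_le.1 d1).1
      push_cast at g1
      have g3 : MT z M h * q ≤ F * q := mul_le_mul_of_nonneg_right d4 hq0
      have g4 : K * (N / L ^ (a + 2)) ≤ K * (F * (q / L)) := mul_le_mul_of_nonneg_left d5 (by linarith)
      nlinarith
    have d7 : (L - 1) ^ 2 ≤ Real.log x ^ 2 := pow_le_pow_left₀ (by linarith) (hlogy x hxN) 2
    have d8 : (Ca M ρ x q h : ℝ) * (L - 1) ^ 2 ≤ F * q + K * (F * (q / L)) :=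
      (mul_le_mul_of_nonneg_left d7 (Nat.cast_nonneg _)).trans d6
    have d9 : F * q + K * (F * (q / L)) ≤ ((1 + δ) * F * (q / L ^ 2)) * (L - 1) ^ 2 := by
      have g1 : F * q + K * (F * (q / L)) = F * (q * (1 + K / L)) := by ring
      rw [g1]
      have g2 : (4 + 5 * K) ≤ δ * L := by
        have : (4 + 5 * K) / δ ≤ L := by linarith
        rw [div_le_iff₀ hδ] at this
        linarith
      have g3 : (1 + K / L) * L ^ 2 ≤ (1 + δ) * (L - 1) ^ 2 := by
        have e1 : (1 + K / L) * L ^ 2 = L ^ 2 + K * L := by field_simp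
        rw [e1]
        have e2 : (L + (4 + 5 * K)) * (L - 1) ^ 2 ≤ L * ((1 + δ) * (L - 1) ^ 2) := by
          have : 0 ≤ (L - 1) ^ 2 := sq_nonneg _
          nlinarith
        have e3 : L * (L ^ 2 + K * L) ≤ (L + (4 + 5 * K)) * (L - 1) ^ 2 := by
          nlinarith [mul_nonneg (sub_nonneg.2 hL8) (sub_nonneg.2 hK0), mul_nonneg (mul_nonneg hL0.le (sub_nonneg.2 hL8)) (sub_nonneg.2 hK0)]
        exact le_of_mul_le_mul_left (e3.trans e2) hL0
      calc F * (q * (1 + K / L)) = F * (q / L ^ 2) * ((1 + K / L) * L ^ 2) := by field_simp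
        _ ≤ F * (q / L ^ 2) * ((1 + δ) * (L - 1) ^ 2) := mul_le_mul_of_nonneg_left g3 (by positivity)
        _ = _ := by ring
    exact le_of_mul_le_mul_right (d8.trans d9) (by
      have : 0 < L - 1 := by linarith
      positivity)

end Pool.Agent.Run7.h931.RL
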