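import Pool.Agent.Run7.h931.RL.Crd
import Pool.Agent.Run7.h931.RS.OneTwo

/-!
# Random shifts in residue classes, part 4: the second moment
-/

set_option autoImplicit false

namespace Pool.Agent.Run7.h931.RL

open Finset Filter
open Pool.Agent.Run7.h931.RS (Pw Fw one_le_Pw one_le_Fw wt wt_nonneg wt_sum wt_pair_le cheb moments sieve Cc bad_sum pairs_sum tri
  ev_log)

/-- the windows carry the data of one coordinate -/
theorem cr_ev (T a w M : ℕ) (hM1 : 1 ≤ M) (hM : ∀ p : ℕ, p.Prime → (p ∣ M ↔ p ≤ w)) (δ : ℝ) (hδ : 0 < δ) (hδ1 : δ ≤ 1 / 4) :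
    ∃ K : ℝ, 0 ≤ K ∧ ∀ᶠ N : ℕ in atTop, ∀ q : ℕ,
    (N : ℝ) ≤ q * Real.log N ^ a → q ≤ N → ∀ c b n : ℕ, b ≤ T * N → n ≤ N → N ≤ 2 * n → (n + c).Coprime M →
      Cr w M (Real.log N) δ K q c b n := by
  obtain ⟨K1, hK1, h1⟩ := pa_lo T a M hM1
  obtain ⟨K2, hK2, h2⟩ := pa_hi T a M hM1
  refine ⟨K1 + K2, by positivity, ?_⟩
  have hP := one_le_Pw w
  have e4 : ∀ᶠ N : ℕ in atTop, (4 * (M : ℝ)) / δ * Real.log N ^ a ≤ N := by
    have h := isLittleO_log_rpow_rpow_atTop (a : ℝ) (zero_lt_one)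
    have h' := (h.comp_tendsto tendsto_natCast_atTop_atTop).bound (c := 1 / ((4 * (M : ℝ)) / δ + 1)) (by positivity)
    filter_upwards [h', eventually_ge_atTop 3] with N hN hN3
    simp only [Function.comp, Real.rpow_natCast, Real.rpow_one] at hN
    have hN3r : (3 : ℝ) ≤ N := by exact_mod_cast hN3
    have hl : 0 ≤ Real.log (N : ℝ) := Real.log_nonneg (by linarith)
    rw [Real.norm_of_nonneg (by positivity), Real.norm_of_nonneg (by positivity)] at hN
    have hc0 : 0 ≤ (4 * (M : ℝ)) / δ := by positivity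
    rw [div_mul_eq_mul_div, one_mul, le_div_iff₀ (by positivity)] at hN
    have : 0 ≤ Real.log (N : ℝ) ^ a := by positivity
    nlinarith
  filter_upwards [h1, h2, ev_log ((4 * (K1 + K2) + 8 * Pw w) / δ + 1), e4, eventually_ge_atTop 3] with
    N g1 g2 g3 g4 g6 q hq hqN c b n hb hnN hn hc
  obtain ⟨L, hL⟩ : ∃ L, L = Real.log (N : ℝ) := ⟨_, rfl⟩
  have hx : n + b ≤ (T + 1) * N := by nlinarith
  have k1 := g1 (n + c) hc (n + b) q hx hq hqN
  have k2 := g2 (n + c) hc (n + b) q hx (by omega) hq hqN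
  rw [← hL] at g3 g4 hq k1 k2 ⊢
  have hL1 : 1 ≤ L := by
    have : 0 ≤ (4 * (K1 + K2) + 8 * Pw w) / δ := by positivity
    linarith
  have hL0 : 0 < L := by linarith
  have hN3r : (3 : ℝ) ≤ N := by exact_mod_cast g6
  have hq0 : 0 < q := by
    rcases Nat.eq_zero_or_pos q with h0 | h0
    · rw [h0, Nat.cast_zero, zero_mul] at hq
      linarith
    · exact h0
  have hqr : (0 : ℝ) < q := by exact_mod_cast hq0
  have g3' : 4 * (K1 + K2) + 8 * Pw w ≤ δ * L := by
    have : (4 * (K1 + K2) + 8 * Pw w) / δ ≤ L := by linarith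
    rw [div_le_iff₀ hδ] at this
    linarith
  have hφ0 : (0 : ℝ) < Nat.totient M := by exact_mod_cast Nat.totient_pos.2 hM1
  refine ⟨hM1, hM, hL0, hq0, hδ, hδ1, by linarith, by linarith, ?_, ?_, ?_⟩
  · have h3 : (4 * (M : ℝ)) / δ * L ^ a ≤ q * L ^ a := g4.trans hq
    have h4 := le_of_mul_le_mul_right h3 (by positivity)
    rw [div_le_iff₀ hδ] at h4
    linarith
  · have : 0 ≤ K2 * ((q / Nat.totient M : ℝ) / L ^ 2) := by positivity
    linarith
  · have : 0 ≤ K1 * ((q / Nat.totient M : ℝ) / L ^ 2) := by positivity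
    linarith

/-- the windows are long -/
lemma cls_pos (M c b q : ℕ) (hM : 1 ≤ M) (hq : M < q) : 0 < (cls M c b q).card := by
  have h1 := (abs_le.1 (cls_card M c b q hM)).1
  have hM0 : (0 : ℝ) < M := by exact_mod_cast hM
  have h2 : 1 < (q : ℝ) / M := by
    rw [lt_div_iff₀ hM0, one_mul]
    exact_mod_cast hq
  have h3 : (0 : ℝ) < (cls M c b q).card := by linarith
  exact_mod_cast h3

/-- products of the second moments, where only the coordinates in `S` matter -/
lemma prod_expS {m : ℕ} (S : Finset (Fin m)) (Ω : Fin m → Finset ℕ) (f : Fin m → ℝ) (β : ℝ) (hf : ∀ j, 0 ≤ f j)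
    (h : ∀ j ∈ S, f j ≤ Real.exp β * (Ω j).card) (h' : ∀ j ∉ S, f j ≤ (Ω j).card) :
    ∏ j, f j ≤ Real.exp (S.card * β) * ∏ j, ((Ω j).card : ℝ) := by
  classical
  calc ∏ j, f j ≤ ∏ j, ((if j ∈ S then Real.exp β else 1) * ((Ω j).card : ℝ)) := by
        apply Finset.prod_le_prod (fun j _ => hf j)
        intro j _
        split_ifs with hj
        · exact h j hj
        · rw [one_mul]
          exact h' j hj
    _ = _ := by
        rw [prod_mul_distrib]
        congr 1
        rw [prod_ite, prod_const, prod_const_one, mul_one, ← Real.exp_nat_mul, filter_mem_eq_inter, univ_inter]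

/-- the weighted number of the survivors -/
noncomputable def Zr {m : ℕ} (M q : ℕ) (c b : Fin m → ℕ) (n : ℕ → ℕ) (R : ℕ) (s : Fin m → ℕ) : ℝ :=
  ∑ k ∈ range R, ∏ j, wt (cls M (c j) (b j) q) (hitc M (c j) (b j) q (n k)) (s j)

lemma wt_ones (U : Finset ℕ) (hU : 0 < U.card) : ∑ v ∈ U, wt U ∅ v * wt U ∅ v = U.card := by
  rw [sum_congr rfl (g := fun _ => (1 : ℝ)) (fun v _ => by rw [wt_empty U hU, mul_one]), sum_const, nsmul_eq_mul, mul_one]

theorem secmomC {m : ℕ} (w M q : ℕ) (c b : Fin m → ℕ) (n : ℕ → ℕ) (hn : ∀ k h, n (k + h) = n k + M * h) (R : ℕ) (hR : 0 < R)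
    (L δ K : ℝ) (S : Finset (Fin m)) (hc : ∀ k < R, ∀ j ∈ S, Cr w M L δ K q (c j) (b j) (n k))
    (he : ∀ k < R, ∀ j ∉ S, hitc M (c j) (b j) q (n k) = ∅) (hU : ∀ j, 0 < (cls M (c j) (b j) q).card) (g : ℕ → ℕ → ℝ)
    (hg : ∀ k h, 1 ≤ h → k + h < R → ∀ j ∈ S, ∑ v ∈ cls M (c j) (b j) q,
      wt (cls M (c j) (b j) q) (hitc M (c j) (b j) q (n k)) v *
      wt (cls M (c j) (b j) q) (hitc M (c j) (b j) q (n k + M * h)) v ≤ Real.exp (g k h) * (cls M (c j) (b j) q).card)
    (η τ : ℝ) (hτ : 0 < τ)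
    (hsum : R * Real.exp (S.card * ((1 + 3 * δ) * (Pw w / L))) +
      2 * ∑ k ∈ range R, ∑ h ∈ Icc 1 (R - 1 - k), Real.exp (S.card * g k h) ≤ (1 + η) * (R : ℝ) ^ 2) :
    (((Fintype.piFinset fun j => cls M (c j) (b j) q).filter fun s => τ * R < |Zr M q c b n R s - R|).card : ℝ) * τ ^ 2 ≤
      η * ∏ j, ((cls M (c j) (b j) q).card : ℝ) := by
  classical
  obtain ⟨e, hee⟩ : ∃ e : ℕ → ℕ → ℝ, e = fun k k' => if k = k' then Real.exp (S.card * ((1 + 3 * δ) * (Pw w / L))) else
      Real.exp (S.card * g (min k k') (max k k' - min k k')) := ⟨_, rfl⟩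
  have h0 : ∀ k, e k k = Real.exp (S.card * ((1 + 3 * δ) * (Pw w / L))) := fun k => by rw [hee]; simp
  have h1 : ∀ k h, 1 ≤ h → e k (k + h) = Real.exp (S.card * g k h) := fun k h hh => by
    rw [hee]
    simp only
    rw [if_neg (by omega), min_eq_left (by omega), max_eq_right (by omega), Nat.add_sub_cancel_left]
  have h2 : ∀ k h, 1 ≤ h → e (k + h) k = Real.exp (S.card * g k h) := fun k h hh => by
    rw [hee]
    simp only
    rw [if_neg (by omega), min_eq_right (by omega), max_eq_left (by omega), Nat.add_sub_cancel_left]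
  have hwn : ∀ k, ∀ j v, 0 ≤ wt (cls M (c j) (b j) q) (hitc M (c j) (b j) q (n k)) v := fun k j v =>
    wt_nonneg _ _ (hitc_sub M (c j) (b j) q (n k)) v
  have hout : ∀ k < R, ∀ k' < R, ∀ j ∉ S, ∑ v ∈ cls M (c j) (b j) q, wt (cls M (c j) (b j) q) (hitc M (c j) (b j) q (n k)) v *
      wt (cls M (c j) (b j) q) (hitc M (c j) (b j) q (n k')) v ≤ (cls M (c j) (b j) q).card := by
    intro k hk k' hk' j hj
    rw [he k hk j hj, he k' hk' j hj, wt_ones _ (hU j)]
  have key := cheb (fun j => cls M (c j) (b j) q) (range R) (nonempty_range_iff.2 hR.ne')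
    (fun k j v => wt (cls M (c j) (b j) q) (hitc M (c j) (b j) q (n k)) v) (fun k hk j => by
      rw [mem_range] at hk
      apply wt_sum
      · exact subset_rfl
      · exact hitc_sub M (c j) (b j) q (n k)
      · by_cases hj : j ∈ S
        · have hcd := hc k hk j hj
          have h3 := hcd.theta
          have h4 : (0 : ℝ) < (cls M (c j) (b j) q).card := by exact_mod_cast hU j
          have h5 := hcd.hδ1
          have h6 : ((hitc M (c j) (b j) q (n k)).card : ℝ) < (cls M (c j) (b j) q).card := by nlinarith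
          exact_mod_cast h6
        · rw [he k hk j hj, card_empty]
          exact hU j) e (fun k hk k' hk' => by
      rw [mem_range] at hk hk'
      rcases lt_trichotomy k k' with hkk | hkk | hkk
      · obtain ⟨h, rfl⟩ : ∃ h, k' = k + h := ⟨k' - k, by omega⟩
        rw [h1 k h (by omega)]
        apply prod_expS S
        · exact fun j => sum_nonneg fun v _ => mul_nonneg (hwn k j v) (hwn (k + h) j v)
        · intro j hj
          rw [hn]
          exact hg k h (by omega) hk' j hj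
        · exact hout k hk (k + h) hk'
      · subst hkk
        rw [h0]
        apply prod_expS S
        · exact fun j => sum_nonneg fun v _ => mul_nonneg (hwn k j v) (hwn k j v)
        · intro j hj
          exact (hc k hk j hj).diag
        · exact hout k hk k hk
      · obtain ⟨h, rfl⟩ : ∃ h, k = k' + h := ⟨k - k', by omega⟩
        rw [h2 k' h (by omega)]
        apply prod_expS S
        · exact fun j => sum_nonneg fun v _ => mul_nonneg (hwn (k' + h) j v) (hwn k' j v)
        · intro j hj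
          rw [hn, sum_congr rfl fun v _ => mul_comm _ _]
          exact hg k' h (by omega) hk j hj
        · exact hout (k' + h) hk k' hk') η τ hτ (by
      rw [card_range, pairs_sum R _ (fun k h => Real.exp (S.card * g k h)) e h0 h1 h2]
      exact hsum)
  rw [card_range] at key
  exact key

/-- multiples of `M` have the same large primes -/
lemma Fw_mulM (w M h : ℕ) (hM1 : 1 ≤ M) (hM : ∀ p : ℕ, p.Prime → (p ∣ M ↔ p ≤ w)) (hh : 1 ≤ h) : Fw w (M * h) = Fw w h := by
  unfold Fw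
  congr 1
  ext p
  rw [mem_filter, mem_filter, Nat.primeFactors_mul (by omega) (by omega), mem_union]
  constructor
  · rintro ⟨h1 | h1, h2⟩
    · exfalso
      have := (hM p (Nat.prime_of_mem_primeFactors h1)).1 (Nat.dvd_of_mem_primeFactors h1)
      omega
    · exact ⟨h1, h2⟩
  · rintro ⟨h1, h2⟩
    exact ⟨Or.inr h1, h2⟩

lemma Ca_le_Cc (M r x q h : ℕ) : Ca M r x q h ≤ Cc x q h := by
  unfold Ca Cc
  apply card_le_card
  intro t ht
  rw [mem_filter] at ht ⊢
  exact ⟨ht.1, ht.2.1⟩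

/-- the second moment below the threshold -/
theorem two_Zr (T a w M : ℕ) (hM1 : 1 ≤ M) (hM : ∀ p : ℕ, p.Prime → (p ∣ M ↔ p ≤ w))
    (ε δ η : ℝ) (hε1 : ε ≤ 1) (hδ : 0 < δ) (hδ1 : δ ≤ 1 / 4) (hδε : 6 * δ ≤ ε)
    (hη : 0 < η) (hη1 : η ≤ 1)
    (hsh : ∀ H : ℕ, ∑ h ∈ Icc 1 H, (Real.exp (2 * Pw w * (Fw w h - 1)) - 1) ≤ η * H) (hδη : Real.exp (4 * δ * Pw w) ≤ 1 + η) :
    ∃ K : ℝ, 0 ≤ K ∧ ∀ᶠ N : ℕ in atTop, ∀ q : ℕ, (N : ℝ) ≤ q * Real.log N ^ a → q ≤ N → ∀ (m : ℕ) (c b : Fin m → ℕ),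
      (∀ j, b j ≤ T * N) → ∀ ρ < M, ∀ S : Finset (Fin m), (∀ j, j ∈ S ↔ (ρ + c j).Coprime M) →
      Pw w * S.card ≤ (1 - ε) * Real.log N ^ 2 → ∃ (n : ℕ → ℕ) (R : ℕ), (N : ℝ) / (8 * M) ≤ R ∧
        (∀ k < R, 1 ≤ n k ∧ n k ≤ N) ∧ (∀ k k', n k = n k' → k = k') ∧ (∀ j, 0 < (cls M (c j) (b j) q).card) ∧
        (∀ k < R, ∀ j ∈ S, Cr w M (Real.log N) δ K q (c j) (b j) (n k)) ∧
        (∀ k < R, ∀ j ∉ S, hitc M (c j) (b j) q (n k) = ∅) ∧
        (((Fintype.piFinset fun j => cls M (c j) (b j) q).filter fun s => 1 / 2 * R < |Zr M q c b n R s - R|).card : ℝ) *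
          (1 / 2) ^ 2 ≤ 7 * η * ∏ j, ((cls M (c j) (b j) q).card : ℝ) := by
  classical
  obtain ⟨K, hK, h1⟩ := cr_ev T a w M hM1 hM δ hδ hδ1
  obtain ⟨C₀, hC₀, h2⟩ := sieve a
  have hMr : (0 : ℝ) < M := by exact_mod_cast hM1
  obtain ⟨Km, hKm, h3⟩ := moments (2 * (2 * M * C₀)) (by positivity) C₀
  have hP := one_le_Pw w
  refine ⟨K, hK, ?_⟩
  have e6 : ∀ᶠ N : ℕ in atTop, ((M : ℝ) + 1) * Real.log N ^ a ≤ N := by
    have h := isLittleO_log_rpow_rpow_atTop (a : ℝ) (zero_lt_one)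
    have h' := (h.comp_tendsto tendsto_natCast_atTop_atTop).bound (c := 1 / ((M : ℝ) + 1)) (by positivity)
    filter_upwards [h', eventually_ge_atTop 3] with N hN hN3
    simp only [Function.comp, Real.rpow_natCast, Real.rpow_one] at hN
    have hN3r : (3 : ℝ) ≤ N := by exact_mod_cast hN3
    have hl : 0 ≤ Real.log (N : ℝ) := Real.log_nonneg (by linarith)
    rw [Real.norm_of_nonneg (by positivity), Real.norm_of_nonneg (by positivity)] at hN
    rw [div_mul_eq_mul_div, one_mul, le_div_iff₀ (by positivity)] at hN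
    linarith
  filter_upwards [h1, h2, hl_ap T a 4 w M hM1 hM δ hδ, ev_log (8 * M * (1 + Km) / η + 1),
    ev_log (Real.log (8 * M / η) / (ε / 2)), e6, eventually_ge_atTop 3, eventually_ge_atTop (8 * M), eventually_ge_atTop (2 * w + 2)] with
    N g1 g2 g3 g4 g5 g10 g6 g7 g8 q hq hqN m c b hb ρ hρ S hS hm
  obtain ⟨L, hL⟩ : ∃ L, L = Real.log (N : ℝ) := ⟨_, rfl⟩
  have hN0 : (0 : ℝ) < N := by exact_mod_cast (by omega : 0 < N)
  have hL1 : 1 ≤ L := by
    rw [hL]
    have : 0 ≤ 8 * M * (1 + Km) / η := by positivity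
    linarith
  have hL0 : 0 < L := by linarith
  obtain ⟨n, hn⟩ : ∃ n : ℕ → ℕ, n = fun k => M * (N / (2 * M) + 1 + k) + ρ := ⟨_, rfl⟩
  obtain ⟨R, hR⟩ : ∃ R : ℕ, R = N / (4 * M) := ⟨_, rfl⟩
  have hRr : (N : ℝ) / (8 * M) ≤ R := by
    have a1 : (N : ℝ) < (4 * M : ℕ) * ((R : ℝ) + 1) := by rw [hR]; exact_mod_cast Nat.lt_mul_div_succ N (by omega)
    have a2 : (8 * M : ℝ) ≤ N := by exact_mod_cast g7
    rw [div_le_iff₀ (by positivity)]
    push_cast at a1
    nlinarith
  have hR0 : 0 < R := by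
    have : (0 : ℝ) < R := lt_of_lt_of_le (by positivity) hRr
    exact_mod_cast this
  have hnk : ∀ k < R, N ≤ 2 * n k ∧ n k ≤ N := by
    intro k hk
    rw [hn]
    simp only
    constructor
    · have := (Nat.lt_mul_div_succ N (by omega : 0 < 2 * M)).le
      calc N ≤ 2 * M * (N / (2 * M) + 1) := this
        _ ≤ 2 * (M * (N / (2 * M) + 1 + k) + ρ) := by nlinarith
    · have a1 : M * (N / (2 * M)) * 2 ≤ N := by
        have := Nat.mul_div_le N (2 * M)
        nlinarith
      have a2 : M * (N / (4 * M)) * 4 ≤ N := by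
        have := Nat.mul_div_le N (4 * M)
        nlinarith
      have a3 : 1 + k ≤ N / (4 * M) := by omega
      have a4 : M * (N / (2 * M) + 1 + k) ≤ M * (N / (2 * M)) + M * (N / (4 * M)) := by
        rw [← mul_add]
        exact Nat.mul_le_mul_left _ (by omega)
      omega
  have hcop : ∀ k j, (n k + c j).Coprime M ↔ j ∈ S := by
    intro k j
    rw [hS, hn]
    simp only
    rw [show M * (N / (2 * M) + 1 + k) + ρ + c j = ρ + c j + M * (N / (2 * M) + 1 + k) by ring]
    exact Nat.coprime_add_mul_left_left _ _ _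
  have hcd : ∀ k < R, ∀ j ∈ S, Cr w M L δ K q (c j) (b j) (n k) := by
    intro k hk j hj
    obtain ⟨a1, a2⟩ := hnk k hk
    rw [hL]
    exact g1 q hq hqN (c j) (b j) (n k) (hb j) a2 a1 ((hcop k j).2 hj)
  have hemp : ∀ k < R, ∀ j ∉ S, hitc M (c j) (b j) q (n k) = ∅ := by
    intro k hk j hj
    obtain ⟨a1, a2⟩ := hnk k hk
    exact hitc_empty w M (c j) (b j) q (n k) hM (by omega) (fun h => hj ((hcop k j).1 h))
  have hMq : M < q := by
    have a1 : ((M : ℝ) + 1) * Real.log N ^ a ≤ q * Real.log N ^ a := g10.trans hq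
    have a2 : (0 : ℝ) < Real.log N ^ a := by
      rw [← hL]
      positivity
    have a3 := le_of_mul_le_mul_right a1 a2
    have a4 : M + 1 ≤ q := by exact_mod_cast a3
    omega
  have hU : ∀ j, 0 < (cls M (c j) (b j) q).card := fun j => cls_pos M (c j) (b j) q hM1 hMq
  have hqa := hq
  rw [← hL] at g4 g5 hm
  have hε0 : 0 < ε := by linarith
  have hm2P : Pw w * (S.card : ℝ) ≤ L ^ 2 := by
    have : 0 ≤ ε * L ^ 2 := by positivity
    linarith
  have hS0 : (0 : ℝ) ≤ S.card := Nat.cast_nonneg _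
  have hm2 : (S.card : ℝ) ≤ L ^ 2 := by nlinarith
  refine ⟨n, R, hRr, fun k hk => ⟨by have := hnk k hk; omega, (hnk k hk).2⟩, ?_, hU, by rw [← hL]; exact hcd, hemp, ?_⟩
  · intro k k' hkk
    rw [hn] at hkk
    simp only at hkk
    have := Nat.eq_of_mul_eq_mul_left (by omega : 0 < M) (Nat.add_right_cancel hkk)
    omega
  -- the exceptional differences
  have hE : ∀ (k : ℕ) (j : Fin m), ∃ E : Finset ℕ, k < R → ((E.card : ℝ) ≤ N / L ^ 4 ∧ ∀ h : ℕ, 1 ≤ h → h ≤ N → h ∉ E →
      ∀ r : ℕ, r.Coprime M → (r + h).Coprime M → (Ca M r (n k + b j) q h : ℝ) ≤ (1 + δ) * (Pw w / Nat.totient M * Fw w h) * (q / L ^ 2)) := by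
    intro k j
    by_cases hk : k < R
    · obtain ⟨a1, a2⟩ := hnk k hk
      obtain ⟨E, hE1, hE2⟩ := g3 (n k + b j) q (by omega) (by nlinarith [hb j]) hqa hqN
      rw [← hL] at hE1 hE2
      exact ⟨E, fun _ => ⟨hE1, hE2⟩⟩
    · exact ⟨∅, fun h => absurd h hk⟩
  choose E hE using hE
  obtain ⟨F, hF⟩ : ∃ F : ℕ → Finset ℕ, F = fun k => S.biUnion (E k) := ⟨_, rfl⟩
  have hFc : ∀ k < R, ((F k).card : ℝ) ≤ N / L ^ 2 := by
    intro k hk
    have a1 : ((F k).card : ℝ) ≤ ∑ j ∈ S, ((E k j).card : ℝ) := by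
      rw [hF]
      exact_mod_cast card_biUnion_le
    refine a1.trans ((sum_le_sum fun j _ => (hE k j hk).1).trans ?_)
    rw [sum_const, nsmul_eq_mul]
    calc (S.card : ℝ) * (N / L ^ 4) ≤ L ^ 2 * (N / L ^ 4) := mul_le_mul_of_nonneg_right hm2 (by positivity)
      _ = _ := by field_simp
  obtain ⟨g, hg⟩ : ∃ g : ℕ → ℕ → ℝ, g = fun k h => if M * h ∈ F k then 2 * M * (C₀ * Fw 0 (M * h) ^ C₀) else
    2 * Pw w * (Fw w h - 1) + 4 * δ * Pw w := ⟨_, rfl⟩
  have hFw1 : ∀ h, 0 ≤ 2 * Pw w * (Fw w h - 1) := fun h => by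
    have := one_le_Fw w h
    apply mul_nonneg (by linarith) (by linarith)
  have hg0 : ∀ k h, 0 ≤ g k h := by
    intro k h
    rw [hg]
    simp only
    have a1 := one_le_Fw 0 (M * h)
    have a2 := hFw1 h
    split_ifs
    · positivity
    · have : 0 ≤ 4 * δ * Pw w := by positivity
      linarith
  have hWh : ∀ k h, k + h < R → M * h ≤ N := by
    intro k h hkh
    have a2 : M * (N / (4 * M)) * 4 ≤ N := by
      have := Nat.mul_div_le N (4 * M)
      nlinarith
    have a3 : M * h ≤ M * (N / (4 * M)) := Nat.mul_le_mul_left _ (by omega)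
    omega
  apply secmomC w M q c b n (fun k h => by rw [hn]; ring) R hR0 L δ K S hcd hemp hU (fun k h => Pw w * (g k h / L ^ 2)) _
    (7 * η) (1 / 2) (by norm_num) _
  · -- the coordinates
    intro k h hh hkh j hj
    have hk : k < R := by omega
    have e0 : n (k + h) = n k + M * h := by rw [hn]; ring
    have hcd2 : Cr w M L δ K q (c j) (b j) (n k + M * h) := by
      rw [← e0]
      exact hcd (k + h) hkh j hj
    by_cases hmem : M * h ∈ F k
    · have e : g k h = 2 * M * (C₀ * Fw 0 (M * h) ^ C₀) := by rw [hg]; simp only; rw [if_pos hmem]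
      rw [e]
      have a0 := one_le_Fw 0 (M * h)
      have a1 := (hcd k hk j hj).bad hcd2 (C₀ * Fw 0 (M * h) ^ C₀) (by positivity) (by
        have := g2 (n k + b j) q (M * h) hqa hqN (Nat.succ_le_of_lt (Nat.mul_pos (by omega) (by omega)))
        rw [← hL] at this
        refine le_trans ?_ this
        exact_mod_cast Ca_le_Cc M (n k + c j) (n k + b j) q (M * h))
      refine a1.trans (mul_le_mul_of_nonneg_right (Real.exp_le_exp.2 ?_) (Nat.cast_nonneg _))
      have a2 : 0 ≤ 2 * M * (C₀ * Fw 0 (M * h) ^ C₀) / L ^ 2 := by positivity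
      nlinarith
    · have e : g k h = 2 * Pw w * (Fw w h - 1) + 4 * δ * Pw w := by rw [hg]; simp only; rw [if_neg hmem]
      rw [e]
      have hnE : M * h ∉ E k j := by
        intro hmE
        apply hmem
        rw [hF]
        exact mem_biUnion.2 ⟨j, hj, hmE⟩
      have a1 := (hE k j hk).2 (M * h) (Nat.succ_le_of_lt (Nat.mul_pos (by omega) (by omega))) (hWh k h hkh) hnE (n k + c j)
        ((hcop k j).2 hj) (by
          have := (hcop (k + h) j).2 hj
          rw [e0] at this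
          rw [show n k + c j + M * h = n k + M * h + c j by ring]
          exact this)
      rw [Fw_mulM w M h hM1 hM hh] at a1
      have a2 := (hcd k hk j hj).good hcd2 (Fw w h) (one_le_Fw w h) a1
      rw [← mul_div_assoc]
      exact a2
  · -- the sums
    have hRr0 : (0 : ℝ) < R := by exact_mod_cast hR0
    have b1 : (R : ℝ) * Real.exp (S.card * ((1 + 3 * δ) * (Pw w / L))) ≤ η * (R : ℝ) ^ 2 := by
      have c1 : (S.card : ℝ) * ((1 + 3 * δ) * (Pw w / L)) ≤ L - ε / 2 * L := by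
        have d0 : (S.card : ℝ) * ((1 + 3 * δ) * (Pw w / L)) = (Pw w * S.card) * ((1 + 3 * δ) / L) := by ring
        rw [d0]
        have d1 : (Pw w * S.card : ℝ) * ((1 + 3 * δ) / L) ≤ ((1 - ε) * L ^ 2) * ((1 + 3 * δ) / L) :=
          mul_le_mul_of_nonneg_right hm (by positivity)
        have d2 : ((1 - ε) * L ^ 2) * ((1 + 3 * δ) / L) = ((1 - ε) * (1 + 3 * δ)) * L := by field_simp
        have d3 : (1 - ε) * (1 + 3 * δ) ≤ 1 - ε / 2 := by nlinarith
        have d4 := mul_le_mul_of_nonneg_right d3 hL0.le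
        linarith
      have c2 : Real.exp (S.card * ((1 + 3 * δ) * (Pw w / L))) ≤ η * R := by
        refine (Real.exp_le_exp.2 c1).trans ?_
        rw [Real.exp_sub, hL, Real.exp_log hN0, ← hL]
        have d1 : 8 * M / η ≤ Real.exp (ε / 2 * L) := by
          rw [div_le_iff₀ (by positivity)] at g5
          have := Real.exp_le_exp.2 g5
          rw [Real.exp_log (by positivity)] at this
          rwa [mul_comm L] at this
        rw [div_le_iff₀ (Real.exp_pos _)]
        have d2 : (N : ℝ) = (η * (N / (8 * M))) * (8 * M / η) := by field_simp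
        calc (N : ℝ) = (η * (N / (8 * M))) * (8 * M / η) := d2
          _ ≤ (η * R) * Real.exp (ε / 2 * L) := mul_le_mul (mul_le_mul_of_nonneg_left hRr hη.le) d1 (by positivity) (by positivity)
      calc (R : ℝ) * Real.exp (S.card * ((1 + 3 * δ) * (Pw w / L))) ≤ R * (η * R) := mul_le_mul_of_nonneg_left c2 hRr0.le
        _ = _ := by ring
    have b2 : ∀ k ∈ range R, ∑ h ∈ Icc 1 (R - 1 - k), Real.exp (S.card * (Pw w * (g k h / L ^ 2))) ≤
        (1 + η) * (((R - 1 - k : ℕ) : ℝ) + η * R) + η * R / 2 := by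
      intro k hk
      rw [mem_range] at hk
      have c1 : ∀ h, Real.exp (S.card * (Pw w * (g k h / L ^ 2))) ≤ Real.exp (g k h) := by
        intro h
        apply Real.exp_le_exp.2
        have : (Pw w * S.card : ℝ) * (g k h / L ^ 2) ≤ L ^ 2 * (g k h / L ^ 2) :=
          mul_le_mul_of_nonneg_right hm2P (div_nonneg (hg0 k h) (by positivity))
        have e1 : (S.card : ℝ) * (Pw w * (g k h / L ^ 2)) = (Pw w * S.card : ℝ) * (g k h / L ^ 2) := by ring
        rw [e1]
        refine this.trans (le_of_eq ?_)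
        field_simp
      have c2 : ∀ h ∈ Icc 1 (R - 1 - k), Real.exp (S.card * (Pw w * (g k h / L ^ 2))) ≤
          (if M * h ∈ F k then Real.exp (2 * M * C₀ * Fw 0 (M * h) ^ C₀) else 0) +
            (1 + η) * (1 + (Real.exp (2 * Pw w * (Fw w h - 1)) - 1)) := by
        intro h _
        refine (c1 h).trans ?_
        have d1 : 0 ≤ (1 + η) * (1 + (Real.exp (2 * Pw w * (Fw w h - 1)) - 1)) := by
          have := Real.exp_pos (2 * Pw w * (Fw w h - 1))
          rw [add_sub_cancel]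
          positivity
        by_cases hmem : M * h ∈ F k
        · have e : g k h = 2 * M * C₀ * Fw 0 (M * h) ^ C₀ := by rw [hg]; simp only; rw [if_pos hmem]; ring
          rw [if_pos hmem, e]
          linarith
        · have e : g k h = 4 * δ * Pw w + 2 * Pw w * (Fw w h - 1) := by rw [hg]; simp only; rw [if_neg hmem]; ring
          rw [if_neg hmem, e, zero_add, Real.exp_add, add_sub_cancel]
          exact mul_le_mul_of_nonneg_right hδη (Real.exp_pos _).le
      refine (sum_le_sum c2).trans ?_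
      rw [sum_add_distrib, ← mul_sum, sum_add_distrib, sum_const, Nat.card_Icc, nsmul_eq_mul, mul_one, Nat.add_sub_cancel, ← sum_filter]
      have c3 := hsh (R - 1 - k)
      have c4 : (((R - 1 - k : ℕ)) : ℝ) ≤ R := by exact_mod_cast (by omega : R - 1 - k ≤ R)
      have c5 : η * (((R - 1 - k : ℕ)) : ℝ) ≤ η * R := mul_le_mul_of_nonneg_left c4 hη.le
      have c6 := bad_sum M N (by omega) (2 * M * C₀) C₀ Km (h3 N) (F k) (R - 1 - k) (by
        rcases Nat.eq_zero_or_pos (R - 1 - k) with h0 | h0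
        · rw [h0]; omega
        · exact hWh k (R - 1 - k) (by omega)) L hL0
      have c7 := hFc k hk
      have c8 : L * (F k).card / 2 + Km * N / (2 * L) ≤ η * R / 2 := by
        have d1 : L * (F k).card ≤ N / L := by
          calc L * (F k).card ≤ L * (N / L ^ 2) := mul_le_mul_of_nonneg_left c7 hL0.le
            _ = N / L := by field_simp
        have d2 : (1 + Km) * N / L ≤ η * R := by
          have f1 : 8 * M * (1 + Km) ≤ η * L := by
            have : 8 * M * (1 + Km) / η ≤ L := by linarith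
            rw [div_le_iff₀ hη] at this
            linarith
          rw [div_le_iff₀ hL0]
          have f2 : (1 + Km) * N = (8 * M * (1 + Km)) * (N / (8 * M)) := by field_simp
          rw [f2]
          calc (8 * M * (1 + Km)) * (N / (8 * M)) ≤ (η * L) * R := mul_le_mul f1 hRr (by positivity) (by positivity)
            _ = _ := by ring
        have d3 : (1 + Km) * N / L = N / L + Km * N / L := by ring
        have d4 : Km * N / (2 * L) = (Km * N / L) / 2 := by ring
        rw [d4]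
        linarith
      have c9 : (1 + η) * ((((R - 1 - k : ℕ)) : ℝ) + ∑ h ∈ Icc 1 (R - 1 - k), (Real.exp (2 * Pw w * (Fw w h - 1)) - 1)) ≤
          (1 + η) * ((((R - 1 - k : ℕ)) : ℝ) + η * R) := mul_le_mul_of_nonneg_left (by linarith) (by linarith)
      linarith
    have b3 := sum_le_sum b2
    rw [sum_add_distrib, ← mul_sum, sum_add_distrib, sum_const, sum_const, card_range, nsmul_eq_mul, nsmul_eq_mul] at b3
    have b4 := tri R
    have b5 : (1 + η) * (∑ k ∈ range R, (((R - 1 - k : ℕ) : ℝ)) + R * (η * R)) ≤ (1 + η) * ((R : ℝ) ^ 2 / 2 + R * (η * R)) :=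
      mul_le_mul_of_nonneg_left (by linarith) (by linarith)
    have b6 : η ^ 2 ≤ η := by nlinarith
    nlinarith [mul_nonneg (sub_nonneg.2 b6) (sq_nonneg (R : ℝ)), mul_nonneg hη.le (sq_nonneg (R : ℝ))]

end Pool.Agent.Run7.h931.RL
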